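import Mathlib

set_option autoImplicit false

namespace Pool.Agent.P.MP_951455_co

open SimpleGraph

/-- From a node `x` of a connected node set `S` of a tree, the path to the root goes through
the node `t` of `S` nearest to the root, and stays in `S` until it reaches `t`. -/
theorem exists_path_via {ι : Type*} (T : SimpleGraph ι) (hT : T.IsTree) (S : Set ι)
    (hS : (T.induce S).Connected) (ρ t x : ι) (ht : t ∈ S) (hx : x ∈ S)
    (hmin : ∀ y ∈ S, T.dist t ρ ≤ T.dist y ρ) :
    ∃ (p : T.Walk x t) (W : T.Walk t ρ), (p.append W).IsPath ∧ ∀ y ∈ p.support, y ∈ S := by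
  classical
  obtain ⟨p0, hp0⟩ := (hS.preconnected ⟨x, hx⟩ ⟨t, ht⟩).exists_isPath
  obtain ⟨W, hWp, hWl⟩ := (hT.connected.preconnected t ρ).exists_path_of_dist
  let f : T.induce S ↪g T := Embedding.induce S
  obtain ⟨p, hpp, hsupp⟩ : ∃ p : T.Walk x t, p.IsPath ∧ ∀ y ∈ p.support, y ∈ S := by
    refine ⟨p0.map f.toHom, Walk.IsPath.map f.injective hp0, ?_⟩
    intro y hy
    have hy' : y ∈ (p0.map f.toHom).support := hy
    rw [Walk.support_map, List.mem_map] at hy'
    obtain ⟨z, _, rfl⟩ := hy'
    exact z.2
  refine ⟨p, W, ?_, hsupp⟩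
  rw [Walk.isPath_def, Walk.support_append, List.nodup_append]
  refine ⟨hpp.support_nodup, hWp.support_nodup.sublist (List.tail_sublist _), ?_⟩
  intro a ha b hb hab
  subst hab
  have haS := hsupp a ha
  have hle := hmin a haS
  cases W with
  | nil => simp at hb
  | cons h W' =>
    simp only [Walk.support_cons, List.tail_cons] at hb
    have h1 : T.dist a _ ≤ (W'.dropUntil a hb).length := T.dist_le _
    have h2 := W'.length_dropUntil_le_length hb
    simp only [Walk.length_cons] at hWl
    omega

/-- For a family of connected node sets of a tree one can pick a top node in each so that of two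
intersecting sets one contains the top node of the other. -/
theorem exists_top {ι W : Type*} (T : SimpleGraph ι) (hT : T.IsTree) (S : W → Set ι)
    (hS : ∀ v, (T.induce (S v)).Connected) :
    ∃ top : W → ι, (∀ v, top v ∈ S v) ∧
      ∀ u v x, x ∈ S u → x ∈ S v → top u ∈ S v ∨ top v ∈ S u := by
  classical
  obtain ⟨ρ⟩ := hT.connected.nonempty
  have hex : ∀ v, ∃ t ∈ S v, ∀ y ∈ S v, T.dist t ρ ≤ T.dist y ρ := by
    intro v
    obtain ⟨⟨z, hz⟩⟩ := (hS v).nonempty
    obtain ⟨t, ht, hmin⟩ := (measure (fun i => T.dist i ρ)).wf.has_min (S v) ⟨z, hz⟩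
    exact ⟨t, ht, fun y hy => not_lt.mp (hmin y hy)⟩
  choose top htop hmin using hex
  refine ⟨top, htop, ?_⟩
  intro u v x hxu hxv
  obtain ⟨p, Wp, hp, hps⟩ := exists_path_via T hT (S u) (hS u) ρ (top u) x (htop u) hxu (hmin u)
  obtain ⟨q, Wq, hq, hqs⟩ := exists_path_via T hT (S v) (hS v) ρ (top v) x (htop v) hxv (hmin v)
  have heq : p.append Wp = q.append Wq := by
    have := (hT.isAcyclic.subsingleton_path x ρ).elim ⟨_, hp⟩ ⟨_, hq⟩
    exact congrArg Subtype.val this
  have h1 : (p.append Wp).getVert p.length = top u := by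
    rw [Walk.getVert_append]; simp
  have h2 : (q.append Wq).getVert q.length = top v := by
    rw [Walk.getVert_append]; simp
  rcases lt_trichotomy p.length q.length with h | h | h
  · left
    rw [heq, Walk.getVert_append, if_pos h] at h1
    rw [← h1]
    exact hqs _ (q.getVert_mem_support _)
  · left
    rw [heq, h, h2] at h1
    rw [← h1]
    exact htop v
  · right
    rw [← heq, Walk.getVert_append, if_pos h] at h2
    rw [← h2]
    exact hps _ (p.getVert_mem_support _)

/-- In a graph with a tree decomposition whose bags have at most `w` vertices, the closed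
neighbourhoods have total size at most `2 w m`. -/
theorem sum_closedNbhd_le {m r w : ℕ} (H : SimpleGraph (Fin m)) [DecidableRel H.Adj]
    (T : SimpleGraph (Fin r)) (hT : T.IsTree) (B : Fin r → Finset (Fin m))
    (hE : ∀ u v, H.Adj u v → ∃ i, u ∈ B i ∧ v ∈ B i)
    (hC : ∀ v, (T.induce {i | v ∈ B i}).Connected)
    (hw : ∀ i, (B i).card ≤ w) :
    ∑ h : Fin m, (Finset.univ.filter (fun h' => h = h' ∨ H.Adj h h')).card ≤ 2 * w * m := by
  classical
  obtain ⟨top, htop, hint⟩ := exists_top T hT (fun v => {i | v ∈ B i}) hC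
  have key : ∀ h : Fin m, (Finset.univ.filter (fun h' => h = h' ∨ H.Adj h h')).card ≤
      (B (top h)).card + (Finset.univ.filter (fun h' => h ∈ B (top h'))).card := by
    intro h
    refine le_trans (Finset.card_le_card ?_) (Finset.card_union_le _ _)
    intro h' hh'
    simp only [Finset.mem_filter, Finset.mem_univ, true_and, Finset.mem_union] at hh' ⊢
    rcases hh' with rfl | hadj
    · left; exact htop h
    · obtain ⟨i, hi1, hi2⟩ := hE h h' hadj
      exact hint h h' i hi1 hi2
  have h2 : ∑ h : Fin m, (Finset.univ.filter (fun h' => h ∈ B (top h'))).card =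
      ∑ h' : Fin m, (B (top h')).card := by
    simp only [Finset.card_filter]
    rw [Finset.sum_comm]
    refine Finset.sum_congr rfl (fun h' _ => ?_)
    rw [← Finset.card_filter]
    congr 1
    ext x
    simp
  have h3 : ∑ h' : Fin m, (B (top h')).card ≤ w * m := by
    calc ∑ h' : Fin m, (B (top h')).card ≤ ∑ _h' : Fin m, w := Finset.sum_le_sum (fun i _ => hw _)
      _ = w * m := by simp [mul_comm]
  calc ∑ h : Fin m, (Finset.univ.filter (fun h' => h = h' ∨ H.Adj h h')).card
      ≤ ∑ h : Fin m, ((B (top h)).card + (Finset.univ.filter (fun h' => h ∈ B (top h'))).card) :=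
        Finset.sum_le_sum (fun h _ => key h)
    _ = ∑ h : Fin m, (B (top h)).card + ∑ h' : Fin m, (B (top h')).card := by
        rw [Finset.sum_add_distrib, h2]
    _ ≤ 2 * w * m := by nlinarith

end Pool.Agent.P.MP_951455_co
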