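import Mathlib
import Pool.Agent.P.MP_951455_co.TreeDec

set_option autoImplicit false

namespace Pool.Agent.P.MP_951455_co

theorem geom_bound (K y : ℕ) :
    ∑ j ∈ (Finset.range K).filter (fun j => 2 ^ j ≤ y), 2 ^ j ≤ 2 * y := by
  have h1 : ∀ K : ℕ, ∑ j ∈ (Finset.range K).filter (fun j => 2 ^ j ≤ y), 2 ^ j ≤ 2 ^ K := by
    intro K
    refine le_trans (Finset.sum_le_sum_of_subset (Finset.filter_subset _ _)) ?_
    have := Nat.geomSum_lt (m := 2) le_rfl (s := Finset.range K) (n := K)
      (fun k hk => Finset.mem_range.mp hk)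
    exact this.le
  induction K with
  | zero => simp
  | succ K ih =>
    rw [Finset.range_add_one, Finset.filter_insert]
    split_ifs with h
    · rw [Finset.sum_insert (by simp)]
      have := h1 K
      omega
    · exact ih

/-- The counting argument.  `ψ j a s` is the image in `H` of the vertex `(j, a, s)`, where for
`j < K` there are `2 ^ (K - j)` centres `a`, each with a block of `2 ^ j` vertices `s`. -/
theorem count_bound {m K L : ℕ} (N : Fin m → Finset (Fin m)) (ψ : ℕ → ℕ × ℕ → Fin m)
    (hN : ∀ j < K, ∀ a < 2 ^ (K - j), ∀ s < 2 ^ j, ψ j (a, s) ∈ N (ψ j (a, 0)))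
    (hfib : ∀ j < K, ∀ h : Fin m,
      ((Finset.range (2 ^ (K - j)) ×ˢ Finset.range (2 ^ j)).filter (fun q => ψ j q = h)).card ≤ L) :
    K * 2 ^ K ≤ 2 * L * L * ∑ h : Fin m, (N h).card := by
  classical
  have hsub : ∀ j < K, ∀ (s : Finset (ℕ × ℕ)) (t : Finset (Fin m)),
      s ⊆ Finset.range (2 ^ (K - j)) ×ˢ Finset.range (2 ^ j) → (∀ q ∈ s, ψ j q ∈ t) →
      s.card ≤ L * t.card := by
    intro j hj s t hs ht
    have h1 : s.card ≤ L * (s.image (ψ j)).card := by
      refine Finset.card_le_mul_card_image s L (fun h _ => ?_)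
      exact le_trans (Finset.card_le_card (Finset.filter_subset_filter _ hs)) (hfib j hj h)
    refine h1.trans (Nat.mul_le_mul_left _ (Finset.card_le_card ?_))
    intro h hh
    obtain ⟨q, hq, rfl⟩ := Finset.mem_image.mp hh
    exact ht q hq
  have hblock : ∀ j < K, ∀ a < 2 ^ (K - j), 2 ^ j ≤ L * (N (ψ j (a, 0))).card := by
    intro j hj a ha
    have := hsub j hj ({a} ×ˢ Finset.range (2 ^ j)) (N (ψ j (a, 0)))
      (Finset.product_subset_product_left (by simpa using ha)) (by
        rintro ⟨a', s⟩ hq
        simp only [Finset.mem_product, Finset.mem_singleton, Finset.mem_range] at hq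
        obtain ⟨rfl, hs⟩ := hq
        exact hN j hj _ ha s hs)
    simpa using this
  have hcent : ∀ j < K, 2 ^ (K - j) ≤
      L * (Finset.univ.filter (fun h => 2 ^ j ≤ L * (N h).card)).card := by
    intro j hj
    have := hsub j hj (Finset.range (2 ^ (K - j)) ×ˢ {0})
      (Finset.univ.filter (fun h => 2 ^ j ≤ L * (N h).card))
      (Finset.product_subset_product_right (by simp)) (by
        rintro ⟨a, s⟩ hq
        simp only [Finset.mem_product, Finset.mem_singleton, Finset.mem_range] at hq
        obtain ⟨ha, rfl⟩ := hq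
        simp only [Finset.mem_filter, Finset.mem_univ, true_and]
        exact hblock j hj a ha)
    simpa using this
  calc K * 2 ^ K = ∑ j ∈ Finset.range K, 2 ^ j * 2 ^ (K - j) := by
        rw [Finset.sum_congr rfl (g := fun _ => 2 ^ K)]
        · simp
        · intro j hj
          rw [← pow_add]
          congr 1
          have := Finset.mem_range.mp hj
          omega
    _ ≤ ∑ j ∈ Finset.range K,
          2 ^ j * (L * (Finset.univ.filter (fun h => 2 ^ j ≤ L * (N h).card)).card) :=
        Finset.sum_le_sum (fun j hj => Nat.mul_le_mul_left _ (hcent j (Finset.mem_range.mp hj)))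
    _ = L * ∑ j ∈ Finset.range K, ∑ h : Fin m, if 2 ^ j ≤ L * (N h).card then 2 ^ j else 0 := by
        rw [Finset.mul_sum]
        refine Finset.sum_congr rfl (fun j _ => ?_)
        rw [← Finset.sum_filter, Finset.sum_const, smul_eq_mul]
        ring
    _ = L * ∑ h : Fin m, ∑ j ∈ (Finset.range K).filter (fun j => 2 ^ j ≤ L * (N h).card), 2 ^ j := by
        rw [Finset.sum_comm]
        congr 1
        refine Finset.sum_congr rfl (fun h _ => ?_)
        rw [Finset.sum_filter]
    _ ≤ L * ∑ h : Fin m, 2 * (L * (N h).card) :=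
        Nat.mul_le_mul_left _ (Finset.sum_le_sum (fun h _ => geom_bound K _))
    _ = 2 * L * L * ∑ h : Fin m, (N h).card := by
        rw [Finset.mul_sum, Finset.mul_sum]
        refine Finset.sum_congr rfl (fun h _ => ?_)
        ring

end Pool.Agent.P.MP_951455_co
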