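import Mathlib

set_option autoImplicit false

namespace Pool.Agent.P.MP_951455_co

/-- Two parabolic arcs over non-interleaving intervals that meet strictly above the axis coincide. -/
theorem arc_core {n : ℕ} (G : SimpleGraph (Fin n))
    (h : ∀ a b c d, G.Adj a c → G.Adj b d → a < b → b < c → c < d → False)
    (a b c d : Fin n) (hac : G.Adj a c) (hbd : G.Adj b d) (X : ℝ)
    (h1 : ((a : ℕ) : ℝ) < X) (h2 : X < ((c : ℕ) : ℝ)) (h3 : ((b : ℕ) : ℝ) < X)
    (h4 : X < ((d : ℕ) : ℝ))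
    (heq : (X - (a : ℕ)) * ((c : ℕ) - X) = (X - (b : ℕ)) * ((d : ℕ) - X)) :
    a = b ∧ c = d := by
  have hbc : b < c := by
    have : ((b : ℕ) : ℝ) < ((c : ℕ) : ℝ) := h3.trans h2
    exact Fin.lt_def.mpr (by exact_mod_cast this)
  have had : a < d := by
    have : ((a : ℕ) : ℝ) < ((d : ℕ) : ℝ) := h1.trans h4
    exact Fin.lt_def.mpr (by exact_mod_cast this)
  rcases lt_trichotomy a b with hab | hab | hab
  · exfalso
    have hdc : d ≤ c := not_lt.mp (fun hcd => h a b c d hac hbd hab hbc hcd)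
    have e1 : ((a : ℕ) : ℝ) < ((b : ℕ) : ℝ) := by exact_mod_cast Fin.lt_def.mp hab
    have e2 : ((d : ℕ) : ℝ) ≤ ((c : ℕ) : ℝ) := by exact_mod_cast Fin.le_def.mp hdc
    nlinarith
  · subst hab
    refine ⟨rfl, ?_⟩
    have hpos : (X - (a : ℕ)) ≠ 0 := by linarith [sub_pos.mpr h1] |> fun (h : (0:ℝ) < X - (a : ℕ)) => h.ne'
    have := mul_left_cancel₀ hpos heq
    have e : ((c : ℕ) : ℝ) = ((d : ℕ) : ℝ) := by linarith
    exact Fin.ext (by exact_mod_cast e)
  · exfalso
    have hcd : c ≤ d := not_lt.mp (fun hdc => h b a d c hbd hac hab had hdc)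
    have e1 : ((b : ℕ) : ℝ) < ((a : ℕ) : ℝ) := by exact_mod_cast Fin.lt_def.mp hab
    have e2 : ((c : ℕ) : ℝ) ≤ ((d : ℕ) : ℝ) := by exact_mod_cast Fin.le_def.mp hcd
    nlinarith

/-- The arc from `u` to `v`: a parabola above the axis if `u < v`, below it otherwise. -/
noncomputable def arc {n : ℕ} (u v : Fin n) (t : unitInterval) : ℝ × ℝ :=
  (((u : ℕ) : ℝ) + (t : ℝ) * (((v : ℕ) : ℝ) - (u : ℕ)),
    (if u < v then (1 : ℝ) else -1) * ((t : ℝ) * (1 - t) * (((v : ℕ) : ℝ) - (u : ℕ)) ^ 2))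

/-- A graph on `Fin n` without interleaving edges has a plane drawing (with both orientations of
each edge drawn as internally disjoint arcs). -/
theorem planar_of_noncross {n : ℕ} (G : SimpleGraph (Fin n))
    (h : ∀ a b c d, G.Adj a c → G.Adj b d → a < b → b < c → c < d → False) :
    ∃ p : Fin n → ℝ × ℝ, Function.Injective p ∧
      ∃ γ : Fin n → Fin n → unitInterval → ℝ × ℝ,
        (∀ u v, G.Adj u v → Continuous (γ u v) ∧ Function.Injective (γ u v) ∧
            γ u v 0 = p u ∧ γ u v 1 = p v) ∧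
        (∀ u v w x, G.Adj u v → γ u v x = p w → (w = u ∧ x = 0) ∨ (w = v ∧ x = 1)) ∧
        (∀ u v u' v' x y, G.Adj u v → G.Adj u' v' → (u, v) ≠ (u', v') →
            γ u v x = γ u' v' y → ∃ w, γ u v x = p w) := by
  have hne : ∀ u v : Fin n, G.Adj u v → (((v : ℕ) : ℝ) - (u : ℕ)) ≠ 0 := by
    intro u v huv h0
    have e : ((v : ℕ) : ℝ) = ((u : ℕ) : ℝ) := by linarith
    exact huv.ne (Fin.ext (by exact_mod_cast e.symm))
  have hsg : ∀ u v : Fin n, (if u < v then (1 : ℝ) else -1) ≠ 0 := by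
    intro u v; split_ifs <;> norm_num
  refine ⟨fun u => (((u : ℕ) : ℝ), 0), ?_, arc, ?_, ?_, ?_⟩
  · intro u v huv
    have e : ((u : ℕ) : ℝ) = ((v : ℕ) : ℝ) := congrArg Prod.fst huv
    exact Fin.ext (by exact_mod_cast e)
  · intro u v huv
    refine ⟨?_, ?_, ?_, ?_⟩
    · unfold arc
      fun_prop
    · intro s t hst
      have e := congrArg Prod.fst hst
      simp only [arc] at e
      have e2 : (s : ℝ) * (((v : ℕ) : ℝ) - (u : ℕ)) = (t : ℝ) * (((v : ℕ) : ℝ) - (u : ℕ)) := by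
        linarith
      exact Subtype.ext (mul_right_cancel₀ (hne u v huv) e2)
    · simp [arc]
    · simp [arc]
  · intro u v w x huv hx
    have e1 := congrArg Prod.fst hx
    have e2 := congrArg Prod.snd hx
    simp only [arc] at e1 e2
    rcases mul_eq_zero.mp e2 with e3 | e3
    · exact absurd e3 (hsg u v)
    rcases mul_eq_zero.mp e3 with e4 | e4
    · rcases mul_eq_zero.mp e4 with e5 | e5
      · left
        refine ⟨?_, Subtype.ext e5⟩
        rw [e5] at e1
        have e : ((w : ℕ) : ℝ) = ((u : ℕ) : ℝ) := by linarith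
        exact Fin.ext (by exact_mod_cast e)
      · right
        have e6 : (x : ℝ) = 1 := by linarith
        refine ⟨?_, Subtype.ext e6⟩
        rw [e6] at e1
        have e : ((w : ℕ) : ℝ) = ((v : ℕ) : ℝ) := by linarith
        exact Fin.ext (by exact_mod_cast e)
    · exact absurd (pow_eq_zero_iff (two_ne_zero) |>.mp e4) (hne u v huv)
  · intro u v u' v' x y huv huv' hneq hxy
    by_cases hx0 : (x : ℝ) = 0
    · exact ⟨u, by simp [arc, hx0]⟩
    by_cases hx1 : (x : ℝ) = 1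
    · exact ⟨v, by simp [arc, hx1]⟩
    exfalso
    have hx0' : 0 < (x : ℝ) := lt_of_le_of_ne x.2.1 (Ne.symm hx0)
    have hx1' : (x : ℝ) < 1 := lt_of_le_of_ne x.2.2 hx1
    have e1 := congrArg Prod.fst hxy
    have e2 := congrArg Prod.snd hxy
    simp only [arc] at e1 e2
    have hA : 0 < (x : ℝ) * (1 - x) * (((v : ℕ) : ℝ) - (u : ℕ)) ^ 2 := by
      have := hne u v huv
      have h1 : 0 < 1 - (x : ℝ) := by linarith
      positivity
    have hB : 0 ≤ (y : ℝ) * (1 - y) * (((v' : ℕ) : ℝ) - (u' : ℕ)) ^ 2 := by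
      have h0 : 0 ≤ (y : ℝ) := y.2.1
      have h1 : 0 ≤ 1 - (y : ℝ) := by linarith [y.2.2]
      positivity
    have hAB : (u < v ↔ u' < v') ∧ (x : ℝ) * (1 - x) * (((v : ℕ) : ℝ) - (u : ℕ)) ^ 2 =
        (y : ℝ) * (1 - y) * (((v' : ℕ) : ℝ) - (u' : ℕ)) ^ 2 := by
      by_cases c1 : u < v <;> by_cases c2 : u' < v' <;> simp only [c1, c2, if_true, if_false] at e2
      · exact ⟨by simp [c1, c2], by linarith⟩
      · exfalso; linarith
      · exfalso; linarith
      · exact ⟨by simp [c1, c2], by linarith⟩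
    obtain ⟨hiff, hAB⟩ := hAB
    have hy0 : 0 < (y : ℝ) := by
      refine lt_of_le_of_ne y.2.1 (fun h0 => ?_)
      rw [← h0] at hAB
      linarith
    have hy1 : (y : ℝ) < 1 := by
      refine lt_of_le_of_ne y.2.2 (fun h0 => ?_)
      rw [h0] at hAB
      linarith
    set X : ℝ := ((u : ℕ) : ℝ) + (x : ℝ) * (((v : ℕ) : ℝ) - (u : ℕ)) with hX
    have hX1 : (X - (u : ℕ)) * ((v : ℕ) - X) =
        (x : ℝ) * (1 - x) * (((v : ℕ) : ℝ) - (u : ℕ)) ^ 2 := by rw [hX]; ring
    have hX2 : (X - (u' : ℕ)) * ((v' : ℕ) - X) =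
        (y : ℝ) * (1 - y) * (((v' : ℕ) : ℝ) - (u' : ℕ)) ^ 2 := by rw [e1]; ring
    by_cases c1 : u < v
    · have c2 : u' < v' := hiff.mp c1
      have d1 : ((u : ℕ) : ℝ) < ((v : ℕ) : ℝ) := by exact_mod_cast Fin.lt_def.mp c1
      have d2 : ((u' : ℕ) : ℝ) < ((v' : ℕ) : ℝ) := by exact_mod_cast Fin.lt_def.mp c2
      have := arc_core G h u u' v v' huv huv' X (by rw [hX]; nlinarith) (by rw [hX]; nlinarith)
        (by rw [e1]; nlinarith) (by rw [e1]; nlinarith) (by rw [hX1, hX2, hAB])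
      exact hneq (Prod.ext this.1 this.2)
    · have c2 : ¬ u' < v' := fun c => c1 (hiff.mpr c)
      have c1' : v < u := lt_of_le_of_ne (not_lt.mp c1) huv.ne'
      have c2' : v' < u' := lt_of_le_of_ne (not_lt.mp c2) huv'.ne'
      have d1 : ((v : ℕ) : ℝ) < ((u : ℕ) : ℝ) := by exact_mod_cast Fin.lt_def.mp c1'
      have d2 : ((v' : ℕ) : ℝ) < ((u' : ℕ) : ℝ) := by exact_mod_cast Fin.lt_def.mp c2'
      have := arc_core G h v v' u u' huv.symm huv'.symm X (by rw [hX]; nlinarith)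
        (by rw [hX]; nlinarith) (by rw [e1]; nlinarith) (by rw [e1]; nlinarith)
        (by linarith)
      exact hneq (Prod.ext this.2 this.1)

end Pool.Agent.P.MP_951455_co
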