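import Mathlib
import Pool.Agent.P.MP_951455_co.TreeDec
import Pool.Agent.P.MP_951455_co.Draw

set_option autoImplicit false

namespace Pool.Agent.P.MP_951455_co

open Finset

section count

variable {V : Type} [Fintype V] [DecidableEq V]

/-- how many nodes with `d (2q)^j` children can sit at a vertex, when `w y` children fit at `y` -/
def step (O : V → Finset V) (q d j : ℕ) (w : V → ℕ) (x : V) : ℕ :=
  min q ((∑ y with x ∈ O y, w y) / (d * (2 * q) ^ j))

theorem geom_min (q d W : ℕ) (hq : 0 < q) (K : ℕ) :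
    ∑ j ∈ range K, d * (2 * q) ^ j * min q (W / (d * (2 * q) ^ j)) ≤ d * (2 * q) ^ K ∧
    ∑ j ∈ range K, d * (2 * q) ^ j * min q (W / (d * (2 * q) ^ j)) ≤ 2 * W := by
  induction K with
  | zero => simp
  | succ K ih =>
    rw [sum_range_succ, pow_succ]
    have h1 := Nat.mul_le_mul_left (d * (2 * q) ^ K) (min_le_left q (W / (d * (2 * q) ^ K)))
    have h2 := (Nat.mul_le_mul_left (d * (2 * q) ^ K)
      (min_le_right q (W / (d * (2 * q) ^ K)))).trans (Nat.mul_div_le _ _)
    have h3 : d * (2 * q) ^ K ≤ d * (2 * q) ^ K * q := Nat.le_mul_of_pos_right _ hq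
    refine ⟨by nlinarith [ih.1], ?_⟩
    rcases le_or_gt (d * (2 * q) ^ K) W with h | h
    · omega
    · simpa [Nat.div_eq_of_lt h] using ih.2

theorem step_sum (O : V → Finset V) (q d D : ℕ) (hq : 0 < q) (hO : ∀ x, (O x).card ≤ D) (K : ℕ)
    (w : V → ℕ) : ∑ j ∈ range K, d * (2 * q) ^ j * ∑ x, step O q d j w x ≤ 2 * D * ∑ y, w y := by
  have h1 : ∑ x : V, ∑ y with x ∈ O y, w y ≤ D * ∑ y, w y := by
    simp only [sum_filter]
    rw [sum_comm, mul_sum]
    refine sum_le_sum fun y _ => ?_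
    rw [← sum_filter, sum_const, smul_eq_mul]
    exact Nat.mul_le_mul_right _ (by simpa using hO y)
  calc ∑ j ∈ range K, d * (2 * q) ^ j * ∑ x, step O q d j w x
      = ∑ x, ∑ j ∈ range K, d * (2 * q) ^ j * step O q d j w x := by
        simp only [mul_sum]; rw [sum_comm]
    _ ≤ ∑ x : V, 2 * ∑ y with x ∈ O y, w y := sum_le_sum fun x _ => (geom_min q d _ hq K).2
    _ ≤ _ := by rw [← mul_sum, mul_assoc]; exact Nat.mul_le_mul_left _ h1

theorem mc_sum (r K : ℕ) :
    ∑ j ∈ range (K + 1), r.multichoose (K - j) = (r + 1).multichoose K := by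
  induction K with
  | zero => simp
  | succ K ih =>
    rw [sum_range_succ', Nat.multichoose_succ_succ, ← ih, add_comm]
    simp

theorem deep_count (O : V → Finset V) (q d D : ℕ) (hq : 0 < q) (hO : ∀ x, (O x).card ≤ D) :
    ∀ (r K : ℕ) (w : V → ℕ),
      (∀ a : List ℕ, a.length = r → a.sum = K → ∃ x, 1 ≤ a.foldr (step O q d) w x) →
      d ^ r * (2 * q) ^ K * r.multichoose K ≤ (2 * D) ^ r * ∑ y, w y := by
  intro r
  induction r with
  | zero =>
    intro K w h
    cases K with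
    | zero =>
      obtain ⟨x, hx⟩ := h [] rfl rfl
      simpa using hx.trans (single_le_sum (f := w) (fun _ _ => Nat.zero_le _) (mem_univ x))
    | succ K => simp
  | succ r ih =>
    intro K w h
    rw [← mc_sum, mul_sum]
    calc ∑ j ∈ range (K + 1), d ^ (r + 1) * (2 * q) ^ K * r.multichoose (K - j)
        ≤ ∑ j ∈ range (K + 1), (2 * D) ^ r * (d * (2 * q) ^ j * ∑ x, step O q d j w x) := by
          refine sum_le_sum fun j hj => ?_
          have hj' : j ≤ K := Nat.lt_succ_iff.1 (mem_range.1 hj)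
          have := ih (K - j) (step O q d j w) fun a h1 h2 => by
            have := h (a ++ [j]) (by simp [h1]) (by simp [h2]; omega)
            rwa [List.foldr_append] at this
          have e : (2 * q) ^ K = (2 * q) ^ j * (2 * q) ^ (K - j) := by
            rw [← pow_add]; congr 1; omega
          rw [mul_left_comm ((2 * D) ^ r)]
          refine le_trans (le_of_eq ?_) (Nat.mul_le_mul_left _ this)
          rw [e]; ring
      _ ≤ (2 * D) ^ (r + 1) * ∑ y, w y := by
          rw [← mul_sum, pow_succ, mul_assoc]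
          exact Nat.mul_le_mul_left _ (step_sum O q d D hq hO _ w)

end count

/-- the nodes of the tree in which a node at depth `i` has `d (Q ^ a_i + 1)` children -/
def paths (Q d : ℕ) : List ℕ → Finset (List ℕ)
  | [] => {[]}
  | j :: a => insert [] ((range (d * Q ^ j + d) ×ˢ paths Q d a).image fun q => q.1 :: q.2)

theorem nil_mem_paths (Q d : ℕ) (a : List ℕ) : [] ∈ paths Q d a := by
  cases a <;> simp [paths]

theorem cons_mem_paths {Q d j x : ℕ} {a p : List ℕ} :
    x :: p ∈ paths Q d (j :: a) ↔ x < d * Q ^ j + d ∧ p ∈ paths Q d a := by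
  simp [paths]

theorem paths_init {Q d x : ℕ} : ∀ {a p : List ℕ}, p ++ [x] ∈ paths Q d a → p ∈ paths Q d a
  | _, [], _ => nil_mem_paths _ _ _
  | [], y :: p, h => by simp [paths] at h
  | j :: a, y :: p, h => cons_mem_paths.2 ⟨(cons_mem_paths.1 h).1, paths_init (cons_mem_paths.1 h).2⟩

theorem paths_length {Q d : ℕ} : ∀ {a p : List ℕ}, p ∈ paths Q d a → p.length ≤ a.length
  | _, [], _ => Nat.zero_le _
  | [], y :: p, h => by simp [paths] at h
  | j :: a, y :: p, h => Nat.succ_le_succ (paths_length (cons_mem_paths.1 h).2)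

theorem card_paths (Q d : ℕ) (hQ : 0 < Q) (hd : 0 < d) (a : List ℕ) :
    (paths Q d a).card ≤ (4 * d) ^ a.length * Q ^ a.sum := by
  induction a with
  | nil => simp [paths]
  | cons j a ih =>
    refine (card_insert_le _ _).trans ?_
    have h1 := card_image_le (s := range (d * Q ^ j + d) ×ˢ paths Q d a)
      (f := fun q : ℕ × List ℕ => q.1 :: q.2)
    rw [card_product, card_range] at h1
    have h2 : 0 < (4 * d) ^ a.length * Q ^ a.sum := by positivity
    have h3 : 0 < Q ^ j := by positivity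
    have h4 := Nat.mul_le_mul_left (d * Q ^ j + d) ih
    rw [List.length_cons, List.sum_cons, pow_succ, pow_add]
    generalize (4 * d) ^ a.length = u at *
    generalize Q ^ a.sum = v at *
    generalize Q ^ j = w at *
    have h5 : d * (u * v) ≤ d * w * (u * v) := Nat.mul_le_mul_right _ (Nat.le_mul_of_pos_right _ h3)
    have h6 : 0 < d * w * (u * v) := by positivity
    nlinarith

theorem group_le {V : Type} [Fintype V] [DecidableEq V] (O : V → Finset V) (q D : ℕ)
    (hq : 0 < q) (hD : 0 < D) (hO : ∀ x, (O x).card ≤ D) (Z : Finset (List ℕ)) (ψ : List ℕ → V)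
    (h1 : ∀ p x, p ∈ Z → p ++ [x] ∈ Z → ψ p ∈ O (ψ (p ++ [x])) ∨ ψ (p ++ [x]) ∈ O (ψ p))
    (h2 : ∀ y, (Z.filter fun p => ψ p = y).card ≤ q) :
    ∀ (a : List ℕ) (I : Finset (List ℕ)) (x : V),
      (∀ p ∈ I, ψ p = x ∧ ∀ p' ∈ paths (2 * q) (D * q) a, p ++ p' ∈ Z) →
      I.card ≤ a.foldr (step O q (D * q)) (fun _ => q) x := by
  have h0 : ∀ (a : List ℕ) (I : Finset (List ℕ)) (x : V),
      (∀ p ∈ I, ψ p = x ∧ ∀ p' ∈ paths (2 * q) (D * q) a, p ++ p' ∈ Z) → I.card ≤ q :=
    fun a I x h => (card_le_card fun p hp => mem_filter.2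
      ⟨by simpa using (h p hp).2 [] (nil_mem_paths _ _ _), (h p hp).1⟩).trans (h2 x)
  intro a
  induction a with
  | nil => exact h0 []
  | cons j a ih =>
    intro I x h
    rw [List.foldr_cons, step, le_min_iff, Nat.le_div_iff_mul_le (by positivity)]
    refine ⟨h0 _ I x h, ?_⟩
    set A := (I ×ˢ range (D * q * (2 * q) ^ j + D * q)).image fun z => z.1 ++ [z.2] with hA
    have hc : A.card = I.card * (D * q * (2 * q) ^ j + D * q) := by
      have hi : Function.Injective fun z : List ℕ × ℕ => z.1 ++ [z.2] := fun z z' hz => by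
        have := List.append_inj' hz rfl
        exact Prod.ext this.1 (List.cons.inj this.2).1
      rw [hA, card_image_of_injective _ hi, card_product, card_range]
    have hm : ∀ u ∈ A, (x ∈ O (ψ u) ∨ ψ u ∈ O x) ∧ ∀ p' ∈ paths (2 * q) (D * q) a, u ++ p' ∈ Z := by
      intro u hu
      obtain ⟨⟨p, z⟩, hz, rfl⟩ := mem_image.1 hu
      obtain ⟨hp, hz⟩ := mem_product.1 hz
      have h3 : ∀ p' ∈ paths (2 * q) (D * q) a, p ++ [z] ++ p' ∈ Z := fun p' hp' => by
        simpa using (h p hp).2 (z :: p') (cons_mem_paths.2 ⟨mem_range.1 hz, hp'⟩)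
      refine ⟨?_, h3⟩
      rw [← (h p hp).1]
      exact h1 p z (by simpa using (h p hp).2 [] (nil_mem_paths _ _ _))
        (by simpa using h3 [] (nil_mem_paths _ _ _))
    have g1 : (A.filter fun u => x ∈ O (ψ u)).card ≤
        ∑ y with x ∈ O y, a.foldr (step O q (D * q)) (fun _ => q) y := by
      rw [card_eq_sum_card_fiberwise (f := ψ) (t := univ.filter fun y => x ∈ O y)
        fun u hu => by simpa using (mem_filter.1 (mem_coe.1 hu)).2]
      exact sum_le_sum fun y _ => ih _ y fun u hu =>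
        ⟨(mem_filter.1 hu).2, (hm u (mem_filter.1 (mem_filter.1 hu).1).1).2⟩
    have g2 : (A.filter fun u => ¬ x ∈ O (ψ u)).card ≤ D * q := by
      rw [card_eq_sum_card_fiberwise (f := ψ) (t := O x) fun u hu =>
        mem_coe.2 ((hm u (mem_filter.1 (mem_coe.1 hu)).1).1.resolve_left
          (mem_filter.1 (mem_coe.1 hu)).2)]
      refine (sum_le_card_nsmul _ _ q fun y _ => h0 a _ y fun u hu =>
        ⟨(mem_filter.1 hu).2, (hm u (mem_filter.1 (mem_filter.1 hu).1).1).2⟩).trans ?_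
      exact Nat.mul_le_mul_right _ (hO x)
    have g3 := card_filter_add_card_filter_not (s := A) fun u => x ∈ O (ψ u)
    rcases Nat.eq_zero_or_pos I.card with h5 | h5
    · simp [h5]
    · have := Nat.le_mul_of_pos_left (D * q) h5
      rw [mul_add] at hc
      omega

theorem lt_snoc (l : List ℕ) (x : ℕ) : l < l ++ [x] := by
  induction l with
  | nil => simp
  | cons h l ih => simpa using ih

theorem snoc_lt_snoc (x y : ℕ) : ∀ a b : List ℕ, a < b → b < a ++ [y] → b ++ [x] < a ++ [y] := by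
  intro a
  induction a with
  | nil =>
    intro b h1 h2
    cases b with
    | nil => simp at h1
    | cons z b =>
      simp only [List.nil_append, List.cons_lt_cons_iff, List.not_lt_nil, and_false,
        or_false, List.cons_append] at h2 ⊢
      exact h2
  | cons h a ih =>
    intro b h1 h2
    cases b with
    | nil => simp at h1
    | cons z b =>
      simp only [List.cons_lt_cons_iff, List.cons_append] at h1 h2 ⊢
      rcases h1 with h1 | ⟨h1, h3⟩
      · omega
      · rcases h2 with h2 | ⟨h2, h4⟩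
        · omega
        · exact Or.inr ⟨h2, ih b h3 h4⟩

theorem acyclic_of_lower {n : ℕ} (G : SimpleGraph (Fin n))
    (h : ∀ v u u', G.Adj v u → G.Adj v u' → u < v → u' < v → u = u') : G.IsAcyclic := by
  intro v c hc
  obtain ⟨w, hw, hmax⟩ := c.support.toFinset.exists_maximal (by simp)
  have hw' : w ∈ c.support := List.mem_toFinset.1 hw
  have hc' := hc.rotate hw'
  have hs : ∀ u ∈ (c.rotate w hw').support, u ≤ w := fun u hu => by
    have : u ∈ c.support := (SimpleGraph.Walk.mem_support_rotate_iff _ _ _).1 hu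
    by_contra hlt
    exact hlt (hmax (List.mem_toFinset.2 this) (not_le.1 hlt).le)
  have a1 := (c.rotate w hw').adj_snd hc'.not_nil
  have a2 := ((c.rotate w hw').adj_penultimate hc'.not_nil).symm
  exact hc'.snd_ne_penultimate (h w _ _ a1 a2
    (lt_of_le_of_ne (hs _ (SimpleGraph.Walk.getVert_mem_support _ _)) a1.ne')
    (lt_of_le_of_ne (hs _ (SimpleGraph.Walk.getVert_mem_support _ _)) a2.ne'))

/-- all degree patterns with `r` levels and total `K` -/
def pats (r K : ℕ) : Finset (List ℕ) :=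
  (univ : Finset (Fin r → Fin (K + 1))).image (fun g => List.ofFn fun i => (g i : ℕ)) |>.filter
    fun a => a.sum = K

theorem mem_pats {r K : ℕ} {a : List ℕ} : a ∈ pats r K ↔ a.length = r ∧ a.sum = K := by
  simp only [pats, mem_filter, mem_image, mem_univ, true_and]
  constructor
  · rintro ⟨⟨g, rfl⟩, h⟩
    exact ⟨by simp, h⟩
  · rintro ⟨rfl, h⟩
    refine ⟨⟨fun i => ⟨a.get i, ?_⟩, by simp⟩, h⟩
    have := List.single_le_sum (l := a) (fun _ _ => Nat.zero_le _) _ (List.get_mem a i)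
    omega

/-- the vertex set of the forest -/
def verts (Q d r K : ℕ) : Finset (List ℕ) :=
  (pats r K).biUnion fun a => (paths Q d a).image fun p => Encodable.encode a :: p

/-- parent and child are adjacent -/
def lgraph {n : ℕ} (e : Fin n → List ℕ) : SimpleGraph (Fin n) where
  Adj u v := (∃ x, e v = e u ++ [x]) ∨ (∃ x, e u = e v ++ [x])
  symm := ⟨fun _ _ h => h.symm⟩
  loopless := ⟨fun u h => by
    rcases h with ⟨x, h⟩ | ⟨x, h⟩ <;> simpa using congrArg List.length h⟩

theorem lgraph_lt {n : ℕ} {e : Fin n → List ℕ} (he : StrictMono e) {u v : Fin n}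
    (h : (lgraph e).Adj u v) (huv : u < v) : ∃ x, e v = e u ++ [x] := by
  rcases h with h | ⟨x, h⟩
  · exact h
  · have := he huv
    rw [h] at this
    exact absurd (lt_snoc _ x) (lt_asymm this)

theorem lgraph_noncross {n : ℕ} {e : Fin n → List ℕ} (he : StrictMono e) :
    ∀ a b c d, (lgraph e).Adj a c → (lgraph e).Adj b d → a < b → b < c → c < d → False := by
  intro a b c d h1 h2 h3 h4 h5
  obtain ⟨y, hy⟩ := lgraph_lt he h1 (h3.trans h4)
  obtain ⟨x, hx⟩ := lgraph_lt he h2 (h4.trans h5)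
  have := snoc_lt_snoc x y _ _ (he h3) (hy ▸ he h4)
  rw [← hx, ← hy] at this
  exact lt_asymm this (he h5)

theorem lgraph_acyclic {n : ℕ} {e : Fin n → List ℕ} (he : StrictMono e) :
    (lgraph e).IsAcyclic := by
  refine acyclic_of_lower _ fun v u u' h1 h2 h3 h4 => ?_
  obtain ⟨x, hx⟩ := lgraph_lt he h1.symm h3
  obtain ⟨y, hy⟩ := lgraph_lt he h2.symm h4
  exact he.injective (List.append_inj_left' (hx.symm.trans hy) rfl)

theorem exists_forest (Q d r K : ℕ) : ∃ (n : ℕ) (e : Fin n → List ℕ), StrictMono e ∧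
    (∀ u, ∃ a ∈ pats r K, ∃ p ∈ paths Q d a, e u = Encodable.encode a :: p) ∧
    ∀ a ∈ pats r K, ∀ p ∈ paths Q d a, ∃ u, e u = Encodable.encode a :: p := by
  let o := (verts Q d r K).orderIsoOfFin rfl
  refine ⟨_, fun u => (o u).1, fun u v h => o.strictMono h, fun u => ?_, fun a ha p hp => ?_⟩
  · have := (o u).2
    simp only [verts, mem_biUnion, mem_image] at this
    obtain ⟨a, ha, p, hp, h⟩ := this
    exact ⟨a, ha, p, hp, h.symm⟩
  · have : Encodable.encode a :: p ∈ verts Q d r K :=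
      mem_biUnion.2 ⟨a, ha, mem_image.2 ⟨p, hp, rfl⟩⟩
    exact ⟨o.symm ⟨_, this⟩, by simp⟩

theorem layer_le {Q d r K n : ℕ} (hQ : 0 < Q) (hd : 0 < d) {e : Fin n → List ℕ} (he : StrictMono e)
    (h : ∀ u, ∃ a ∈ pats r K, ∃ p ∈ paths Q d a, e u = Encodable.encode a :: p) (i : ℕ) :
    (univ.filter fun v => (e v).headI = i).card ≤ (4 * d) ^ r * Q ^ K := by
  rcases (univ.filter fun v => (e v).headI = i).eq_empty_or_nonempty with h0 | ⟨u, hu⟩
  · simp [h0]
  obtain ⟨a, ha, p, -, hp⟩ := h u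
  have hi : i = Encodable.encode a := by
    have := (mem_filter.1 hu).2
    rw [hp] at this
    exact this.symm
  have hc := card_paths Q d hQ hd a
  rw [(mem_pats.1 ha).1, (mem_pats.1 ha).2] at hc
  have key : ∀ v, (e v).headI = i → ∃ q ∈ paths Q d a, e v = i :: q := fun v hv => by
    obtain ⟨a', -, q, hq, h'⟩ := h v
    rw [h', hi] at hv
    obtain rfl : a' = a := Encodable.encode_injective hv
    exact ⟨q, hq, hi ▸ h'⟩
  refine (card_le_card_of_injOn (fun v => (e v).tail) (fun v hv => ?_) fun v hv w hw hvw => ?_).trans hc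
  · obtain ⟨q, hq, h'⟩ := key v (mem_filter.1 (mem_coe.1 hv)).2
    simpa [h'] using hq
  · obtain ⟨q, -, h1⟩ := key v (mem_filter.1 (mem_coe.1 hv)).2
    obtain ⟨q', -, h2⟩ := key w (mem_filter.1 (mem_coe.1 hw)).2
    refine he.injective ?_
    simp only [h1, h2, List.tail_cons] at hvw
    rw [h1, h2, hvw]

theorem deep_embedding {t c r K n m l s : ℕ} (hc : 0 < c) {e : Fin n → List ℕ}
    (hn : 0 < n) (hs : ∀ a ∈ pats r K, ∀ p ∈ paths (2 * c) ((t + 1) * 3 * c) a,
      ∃ u, e u = Encodable.encode a :: p)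
    (H : SimpleGraph (Fin m)) (T : SimpleGraph (Fin s)) (hT : T.IsTree)
    (B : Fin s → Finset (Fin m)) (hE : ∀ u v, H.Adj u v → ∃ i, u ∈ B i ∧ v ∈ B i)
    (hC : ∀ v, (T.induce {i | v ∈ B i}).Connected) (hw : ∀ i, (B i).card ≤ t + 1)
    (φ : Fin n → Fin m × Fin l × Fin c) (hφ : Function.Injective φ)
    (hadj : ∀ u v, (lgraph e).Adj u v → ((φ u).1 = (φ v).1 ∨ H.Adj (φ u).1 (φ v).1) ∧
      ((φ u).2.1 = (φ v).2.1 ∨ (SimpleGraph.pathGraph l).Adj (φ u).2.1 (φ v).2.1)) :
    ((t + 1) * 3 * c) ^ r * (2 * c) ^ K * r.multichoose K ≤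
      (2 * ((t + 1) * 3)) ^ r * (m * (2 * r + 1) * c) := by
  obtain ⟨top, htop, hint⟩ := exists_top T hT (fun v => {i | v ∈ B i}) hC
  let O : Fin m × Fin (2 * r + 1) → Finset (Fin m × Fin (2 * r + 1)) := fun x =>
    B (top x.1) ×ˢ univ.filter fun z : Fin (2 * r + 1) => z.val ≤ x.2.val + 1 ∧ x.2.val ≤ z.val + 1
  have hO : ∀ x, (O x).card ≤ (t + 1) * 3 := fun x => by
    simp only [O, card_product]
    refine Nat.mul_le_mul (hw _) ((card_le_card_of_injOn (t := Icc ((x.2 : ℕ) - 1) (x.2 + 1))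
      Fin.val (fun z hz => ?_) Fin.val_injective.injOn).trans (by rw [Nat.card_Icc]; omega))
    have := (mem_filter.1 (mem_coe.1 hz)).2
    exact mem_coe.2 (mem_Icc.2 (by omega))
  have := deep_count O c ((t + 1) * 3 * c) _ hc hO r K (fun _ => c) fun a h1 h2 => ?_
  · simpa using this
  have hch : ∀ p, ∃ u, p ∈ paths (2 * c) ((t + 1) * 3 * c) a → e u = Encodable.encode a :: p :=
    fun p => by
    by_cases hp : p ∈ paths (2 * c) ((t + 1) * 3 * c) a
    · obtain ⟨u, hu⟩ := hs a (mem_pats.2 ⟨h1, h2⟩) p hp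
      exact ⟨u, fun _ => hu⟩
    · exact ⟨⟨0, hn⟩, fun h => absurd h hp⟩
  choose U hU using hch
  have hA : ∀ p x, p ++ [x] ∈ paths (2 * c) ((t + 1) * 3 * c) a →
      (lgraph e).Adj (U p) (U (p ++ [x])) := fun p x hq =>
    Or.inl ⟨x, by rw [hU _ (paths_init hq), hU _ hq]; rfl⟩
  have hP : ∀ p x, p ++ [x] ∈ paths (2 * c) ((t + 1) * 3 * c) a →
      ((φ (U p)).2.1 : ℕ) ≤ (φ (U (p ++ [x]))).2.1 + 1 ∧
      ((φ (U (p ++ [x]))).2.1 : ℕ) ≤ (φ (U p)).2.1 + 1 := fun p x hq => by
    have b1 := (hadj _ _ (hA p x hq)).2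
    rw [SimpleGraph.pathGraph_adj, Fin.ext_iff] at b1
    omega
  have hW : ∀ p, p ∈ paths (2 * c) ((t + 1) * 3 * c) a →
      ((φ (U [])).2.1 : ℕ) ≤ (φ (U p)).2.1 + p.length ∧
      ((φ (U p)).2.1 : ℕ) ≤ (φ (U [])).2.1 + p.length := fun p => by
    induction p using List.reverseRecOn with
    | nil => simp
    | append_singleton p x ih =>
      intro hq
      have := ih (paths_init hq)
      have := hP p x hq
      simp only [List.length_append, List.length_singleton]
      omega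
  have hM : ∀ p, p ∈ paths (2 * c) ((t + 1) * 3 * c) a →
      min ((φ (U p)).2.1 + r - (φ (U [])).2.1 : ℕ) (2 * r) + (φ (U [])).2.1 =
        (φ (U p)).2.1 + r := fun p hp => by
    have := hW p hp
    have := paths_length hp
    omega
  let ψ : List ℕ → Fin m × Fin (2 * r + 1) := fun p =>
    ((φ (U p)).1, ⟨min ((φ (U p)).2.1 + r - (φ (U [])).2.1) (2 * r), by omega⟩)
  refine ⟨ψ [], group_le O c _ hc (by positivity) hO (paths (2 * c) ((t + 1) * 3 * c) a) ψ
    (fun p x hp hq => ?_) (fun y => ?_) a {[]} _ fun p hp => ⟨?_, ?_⟩⟩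
  · have b1 := hP p x hq
    have b2 := hM _ hp
    have b3 := hM _ hq
    simp only [O, ψ, mem_product, mem_filter, mem_univ, true_and]
    rcases (hadj _ _ (hA p x hq)).1 with h | h
    · exact Or.inl ⟨by rw [h]; exact htop _, by omega⟩
    · obtain ⟨i, hi1, hi2⟩ := hE _ _ h
      exact (hint _ _ i hi1 hi2).symm.imp (fun h => ⟨h, by omega⟩) fun h => ⟨h, by omega⟩
  · refine (card_le_card_of_injOn (t := univ) (fun p => (φ (U p)).2.2) (fun _ _ => by simp)
      fun p hp p' hp' h => ?_).trans (by simp)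
    obtain ⟨b1, b2⟩ := mem_filter.1 (mem_coe.1 hp)
    obtain ⟨b3, b4⟩ := mem_filter.1 (mem_coe.1 hp')
    have b5 := b2.trans b4.symm
    simp only [ψ, Prod.mk.injEq, Fin.mk.injEq] at b5
    have b6 := hM _ b1
    have b7 := hM _ b3
    have h3 : U p = U p' := hφ (Prod.ext b5.1 (Prod.ext (Fin.ext (by omega)) h))
    have h4 := hU _ b1
    rw [h3, hU _ b3] at h4
    simpa using h4.symm
  · rw [mem_singleton.1 hp]
  · rw [mem_singleton.1 hp]; simp

theorem pow_le_mc (q r : ℕ) : q ^ r ≤ (r + 1).multichoose (q * r) := by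
  rw [Nat.multichoose_eq, show r + 1 + q * r - 1 = q * r + r by omega, Nat.choose_symm_add]
  refine Nat.le_of_mul_le_mul_left ?_ (Nat.factorial_pos r)
  rw [← Nat.ascFactorial_eq_factorial_mul_choose]
  refine le_trans ?_ (Nat.pow_succ_le_ascFactorial _ _)
  calc r.factorial * q ^ r ≤ r ^ r * q ^ r := Nat.mul_le_mul_right _ (Nat.factorial_le_pow r)
    _ = (q * r) ^ r := by rw [mul_pow, mul_comm]
    _ ≤ _ := Nat.pow_le_pow_left (Nat.le_succ _) _

theorem final_count {D d g r m x : ℕ} (hD : 0 < D) (hd : 0 < d) (hg : 0 < g)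
    (hm : m ≤ (4 * d * g) ^ (r + 2) * 2 ^ (r + 2))
    (h : d ^ (r + 1) * g ^ r * (64 * D) ^ r ≤ (2 * D) ^ (r + 1) * (m * (2 * (r + 1) + 1) * x)) :
    r < 32 * D * x * (4 * d * g) ^ 2 := by
  have h0 : 2 * (r + 1) + 1 ≤ 2 ^ (r + 2) := by
    have := @Nat.lt_two_pow_self r
    rw [pow_add]; omega
  have h1 : (32 * D * d * g) ^ r * 2 ^ r ≤
      (32 * D * d * g) ^ r * (32 * D * x * (4 * d * g) ^ 2) := by
    calc (32 * D * d * g) ^ r * 2 ^ r = d ^ r * g ^ r * (64 * D) ^ r := by
          rw [← mul_pow, ← mul_pow, ← mul_pow]; congr 1; ring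
      _ ≤ d ^ (r + 1) * g ^ r * (64 * D) ^ r := by gcongr; omega
      _ ≤ (2 * D) ^ (r + 1) * ((4 * d * g) ^ (r + 2) * 2 ^ (r + 2) * 2 ^ (r + 2) * x) :=
          h.trans (by gcongr)
      _ = _ := by
          rw [show 32 * D * d * g = 2 * D * (4 * d * g) * 2 * 2 by ring]
          generalize 4 * d * g = E
          rw [mul_pow _ 2 r, mul_pow _ 2 r, mul_pow _ E r, pow_succ (2 * D), pow_add, pow_add]
          generalize 2 ^ r = y
          generalize (2 * D) ^ r = z
          ring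
  exact (Nat.lt_two_pow_self).trans_le (Nat.le_of_mul_le_mul_left h1 (by positivity))

theorem rpow_bound {Q s E b m k : ℕ} (hQ : 2 ≤ Q) (hs : 0 < s) (hE : E ≤ Q ^ s) (hb : b ≤ E ^ k)
    (hm : (m : ℝ) ≤ (b : ℝ) ^ (1 + 1 / (s * Real.logb 2 Q))) : m ≤ E ^ k * 2 ^ k := by
  have hs' : (0 : ℝ) < s := by exact_mod_cast hs
  have hQ' : (1 : ℝ) < Q := by exact_mod_cast hQ
  have hL : 0 < Real.logb 2 Q := Real.logb_pos one_lt_two hQ'
  have h1 : (b : ℝ) ≤ (E : ℝ) ^ k := by exact_mod_cast hb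
  have h2 : (b : ℝ) ≤ (2 : ℝ) ^ (k * (s * Real.logb 2 Q)) := by
    rw [show k * (s * Real.logb 2 Q) = Real.logb 2 Q * ((s * k : ℕ) : ℝ) by push_cast; ring,
      Real.rpow_mul_natCast two_pos.le, Real.rpow_logb two_pos (by norm_num) (by linarith), pow_mul]
    refine h1.trans (pow_le_pow_left₀ (by positivity) ?_ _)
    exact_mod_cast hE
  have h3 : (b : ℝ) ^ (1 / (s * Real.logb 2 Q)) ≤ 2 ^ k := by
    refine (Real.rpow_le_rpow (by positivity) h2 (by positivity)).trans (le_of_eq ?_)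
    rw [← Real.rpow_mul two_pos.le, mul_one_div, mul_div_assoc, div_self (by positivity), mul_one,
      Real.rpow_natCast]
  rw [Real.rpow_add' (by positivity) (by positivity), Real.rpow_one] at hm
  exact_mod_cast hm.trans (mul_le_mul h1 h3 (by positivity) (by positivity))

end Pool.Agent.P.MP_951455_co
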