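import Mathlib
import Pool.Agent.P.MP_951455_co.TreeDec
import Pool.Agent.P.MP_951455_co.Draw
import Pool.Agent.P.MP_951455_co.Count

set_option autoImplicit false

namespace Pool.Agent.P.MP_951455_co

/-- An enumeration, in lexicographic order, of the triples `(j, a, s)` with `j < K`,
`a < 2 ^ (K - j)` and `s < 2 ^ j`. -/
theorem exists_enum (K : ℕ) : ∃ (n : ℕ) (J A S : Fin n → ℕ),
    (∀ u v, u < v ↔ J u < J v ∨ (J u = J v ∧ (A u < A v ∨ (A u = A v ∧ S u < S v)))) ∧
    (∀ u, J u < K ∧ A u < 2 ^ (K - J u) ∧ S u < 2 ^ (J u)) ∧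
    (∀ j < K, ∀ a < 2 ^ (K - j), ∀ s < 2 ^ j, ∃ u, J u = j ∧ A u = a ∧ S u = s) := by
  classical
  let W : Finset (ℕ ×ₗ (ℕ ×ₗ ℕ)) := (Finset.range K).biUnion (fun j =>
    (Finset.range (2 ^ (K - j)) ×ˢ Finset.range (2 ^ j)).image (fun q => toLex (j, toLex q)))
  let e : Fin W.card ≃o W := W.orderIsoOfFin rfl
  refine ⟨W.card, fun u => (ofLex (e u).1).1, fun u => (ofLex (ofLex (e u).1).2).1,
    fun u => (ofLex (ofLex (e u).1).2).2, ?_, ?_, ?_⟩
  · intro u v
    rw [← e.lt_iff_lt, ← Subtype.coe_lt_coe, Prod.Lex.lt_iff, Prod.Lex.lt_iff]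
  · intro u
    have hu := (e u).2
    simp only [W, Finset.mem_biUnion, Finset.mem_image, Finset.mem_product, Finset.mem_range] at hu
    obtain ⟨j, hj, q, ⟨hq1, hq2⟩, hq⟩ := hu
    simp only [← hq, ofLex_toLex]
    exact ⟨hj, hq1, hq2⟩
  · intro j hj a ha s hs
    have hmem : toLex (j, toLex (a, s)) ∈ W := by
      simp only [W, Finset.mem_biUnion, Finset.mem_image, Finset.mem_product, Finset.mem_range]
      exact ⟨j, hj, (a, s), ⟨ha, hs⟩, rfl⟩
    refine ⟨e.symm ⟨_, hmem⟩, ?_, ?_, ?_⟩ <;> simp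

/-- The forest: in layer `j` the root `(j,0,0)` is joined to the centres `(j,a,0)` and each centre
`(j,a,0)` is joined to its leaves `(j,a,s)`. -/
def forest {n : ℕ} (J A S : Fin n → ℕ) : SimpleGraph (Fin n) where
  Adj u v := J u = J v ∧ ((S u = 0 ∧ A u = A v ∧ 0 < S v) ∨ (S v = 0 ∧ A u = A v ∧ 0 < S u) ∨
    (A u = 0 ∧ S u = 0 ∧ S v = 0 ∧ 0 < A v) ∨ (A v = 0 ∧ S v = 0 ∧ S u = 0 ∧ 0 < A u))
  symm := ⟨by intro u v h; omega⟩
  loopless := ⟨by intro u h; omega⟩

theorem no_embedding {n K m k c r : ℕ} (J A S : Fin n → ℕ)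
    (hsurj : ∀ j < K, ∀ a < 2 ^ (K - j), ∀ s < 2 ^ j, ∃ u, J u = j ∧ A u = a ∧ S u = s)
    (H : SimpleGraph (Fin m)) (T : SimpleGraph (Fin r)) (hT : T.IsTree)
    (B : Fin r → Finset (Fin m))
    (hE : ∀ u v, H.Adj u v → ∃ i, u ∈ B i ∧ v ∈ B i)
    (hC : ∀ v, (T.induce {i | v ∈ B i}).Connected)
    (hw : ∀ i, (B i).card ≤ 3 + 1)
    (φ : Fin n → Fin m × Fin k × Fin c) (hφ : Function.Injective φ)
    (hadj : ∀ u v, (forest J A S).Adj u v →
      ((φ u).1 = (φ v).1 ∨ H.Adj (φ u).1 (φ v).1) ∧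
      ((φ u).2.1 = (φ v).2.1 ∨ (SimpleGraph.pathGraph k).Adj (φ u).2.1 (φ v).2.1))
    (hK : 0 < K) :
    K * 2 ^ K ≤ 400 * c ^ 2 * m := by
  classical
  have h0 : ∀ j, 0 < 2 ^ j := fun j => Nat.two_pow_pos j
  obtain ⟨u0, -⟩ := hsurj 0 hK 0 (h0 _) 0 (h0 _)
  have hch : ∀ (j : ℕ) (q : ℕ × ℕ), ∃ u : Fin n,
      j < K → q.1 < 2 ^ (K - j) → q.2 < 2 ^ j → J u = j ∧ A u = q.1 ∧ S u = q.2 := by
    intro j q
    by_cases h : j < K ∧ q.1 < 2 ^ (K - j) ∧ q.2 < 2 ^ j
    · obtain ⟨u, hu⟩ := hsurj j h.1 q.1 h.2.1 q.2 h.2.2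
      exact ⟨u, fun _ _ _ => hu⟩
    · exact ⟨u0, fun h1 h2 h3 => absurd ⟨h1, h2, h3⟩ h⟩
  choose U hU using hch
  have hUinj : ∀ j < K, ∀ q q' : ℕ × ℕ, q.1 < 2 ^ (K - j) → q.2 < 2 ^ j →
      q'.1 < 2 ^ (K - j) → q'.2 < 2 ^ j → U j q = U j q' → q = q' := by
    intro j hj q q' h1 h2 h3 h4 h
    have a1 := hU j q hj h1 h2
    have a2 := hU j q' hj h3 h4
    rw [h] at a1
    exact Prod.ext (by omega) (by omega)
  have hsame : ∀ j < K, ∀ a < 2 ^ (K - j), ∀ s < 2 ^ j,
      U j (a, 0) = U j (a, s) ∨ (forest J A S).Adj (U j (a, 0)) (U j (a, s)) := by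
    intro j hj a ha s hs
    rcases Nat.eq_zero_or_pos s with rfl | hpos
    · left; rfl
    · right
      have a1 := hU j (a, 0) hj ha (h0 _)
      have a2 := hU j (a, s) hj ha hs
      simp only [forest]
      simp only at a1 a2
      omega
  have hroot : ∀ j < K, ∀ a < 2 ^ (K - j),
      U j (0, 0) = U j (a, 0) ∨ (forest J A S).Adj (U j (0, 0)) (U j (a, 0)) := by
    intro j hj a ha
    rcases Nat.eq_zero_or_pos a with rfl | hpos
    · left; rfl
    · right
      have a1 := hU j (0, 0) hj (h0 _) (h0 _)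
      have a2 := hU j (a, 0) hj ha (h0 _)
      simp only [forest]
      simp only at a1 a2
      omega
  have hnear : ∀ u v, (u = v ∨ (forest J A S).Adj u v) →
      ((φ u).2.1 : ℕ) ≤ (φ v).2.1 + 1 ∧ ((φ v).2.1 : ℕ) ≤ (φ u).2.1 + 1 := by
    intro u v h
    rcases h with rfl | h
    · omega
    · rcases (hadj u v h).2 with h1 | h1
      · rw [h1]; omega
      · rw [SimpleGraph.pathGraph_adj] at h1
        omega
  have hcount := count_bound (K := K) (L := 5 * c)
    (fun h => Finset.univ.filter (fun h' => h = h' ∨ H.Adj h h')) (fun j q => (φ (U j q)).1)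
    (by
      intro j hj a ha s hs
      simp only [Finset.mem_filter, Finset.mem_univ, true_and]
      rcases hsame j hj a ha s hs with h | h
      · left; rw [h]
      · exact (hadj _ _ h).1)
    (by
      intro j hj h
      set p0 : ℕ := ((φ (U j (0, 0))).2.1 : ℕ) with hp0
      have hcard : (Finset.Icc (p0 - 2) (p0 + 2) ×ˢ (Finset.univ : Finset (Fin c))).card ≤
          5 * c := by
        rw [Finset.card_product, Nat.card_Icc, Finset.card_univ, Fintype.card_fin]
        exact Nat.mul_le_mul_right _ (by omega)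
      refine le_trans (Finset.card_le_card_of_injOn
        (fun q => (((φ (U j q)).2.1 : ℕ), (φ (U j q)).2.2)) ?_ ?_) hcard
      · rintro ⟨a, s⟩ hq
        simp only [Finset.coe_filter, Finset.mem_product, Finset.mem_range, Set.mem_ofPred_eq] at hq
        obtain ⟨⟨ha, hs⟩, -⟩ := hq
        have b1 := hnear _ _ (hroot j hj a ha)
        have b2 := hnear _ _ (hsame j hj a ha s hs)
        simp only [Finset.coe_product, Set.mem_prod, Finset.mem_coe, Finset.mem_Icc,
          Finset.mem_univ, and_true]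
        omega
      · rintro q hq q' hq' hqq
        simp only [Finset.coe_filter, Finset.mem_product, Finset.mem_range,
          Set.mem_ofPred_eq] at hq hq'
        obtain ⟨⟨ha, hs⟩, h1⟩ := hq
        obtain ⟨⟨ha', hs'⟩, h1'⟩ := hq'
        simp only [Prod.mk.injEq] at hqq
        refine hUinj j hj q q' ha hs ha' hs' (hφ ?_)
        exact Prod.ext (h1.trans h1'.symm) (Prod.ext (Fin.ext hqq.1) hqq.2))
  have hsum := sum_closedNbhd_le H T hT B hE hC hw
  calc K * 2 ^ K ≤ 2 * (5 * c) * (5 * c) * (2 * (3 + 1) * m) :=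
        hcount.trans (Nat.mul_le_mul_left _ hsum)
    _ = 400 * c ^ 2 * m := by ring

theorem forest_noncross {n : ℕ} (J A S : Fin n → ℕ)
    (hlt : ∀ u v, u < v ↔ J u < J v ∨ (J u = J v ∧ (A u < A v ∨ (A u = A v ∧ S u < S v)))) :
    ∀ a b c d, (forest J A S).Adj a c → (forest J A S).Adj b d → a < b → b < c → c < d →
      False := by
  intro a b c d h1 h2 h3 h4 h5
  rw [hlt] at h3 h4 h5
  simp only [forest] at h1 h2
  omega

theorem layer_card {n K : ℕ} (J A S : Fin n → ℕ)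
    (hlt : ∀ u v, u < v ↔ J u < J v ∨ (J u = J v ∧ (A u < A v ∨ (A u = A v ∧ S u < S v))))
    (hbd : ∀ u, J u < K ∧ A u < 2 ^ (K - J u) ∧ S u < 2 ^ (J u)) (i : ℕ) :
    (Finset.univ.filter (fun v => J v = i)).card ≤ 2 ^ K := by
  by_cases hi : i < K
  · have hcard : (Finset.range (2 ^ (K - i)) ×ˢ Finset.range (2 ^ i)).card = 2 ^ K := by
      rw [Finset.card_product, Finset.card_range, Finset.card_range, ← pow_add]
      congr 1
      omega
    rw [← hcard]
    refine Finset.card_le_card_of_injOn (fun u => (A u, S u)) ?_ ?_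
    · intro u hu
      simp only [Finset.coe_filter, Finset.mem_univ, true_and, Set.mem_ofPred_eq] at hu
      have := hbd u
      rw [hu] at this
      simp only [Finset.coe_product, Set.mem_prod, Finset.mem_coe, Finset.mem_range]
      exact ⟨this.2.1, this.2.2⟩
    · intro u hu v hv huv
      simp only [Finset.coe_filter, Finset.mem_univ, true_and, Set.mem_ofPred_eq] at hu hv
      simp only [Prod.mk.injEq] at huv
      rcases lt_trichotomy u v with h | h | h
      · rw [hlt] at h; omega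
      · exact h
      · rw [hlt] at h; omega
  · have : Finset.univ.filter (fun v => J v = i) = ∅ := by
      rw [Finset.filter_eq_empty_iff]
      intro v _ hv
      have := (hbd v).1
      omega
    rw [this]
    simp

end Pool.Agent.P.MP_951455_co
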