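import Mathlib

set_option autoImplicit false

namespace Pool.Agent.P.MP_951455_co

open Finset

theorem rooting {n : ℕ} (G : SimpleGraph (Fin n)) (hG : G.IsAcyclic) :
    ∃ (ρ π : Fin n → Fin n) (δ : Fin n → ℕ), (∀ v, G.Reachable (ρ v) v) ∧ (∀ v, δ v < n) ∧
      (∀ v, δ v = 0 → ρ v = v) ∧ (∀ v, 0 < δ v → δ (π v) + 1 = δ v ∧ ρ (π v) = ρ v) ∧
      ∀ u v, G.Adj u v → (0 < δ u ∧ π u = v) ∨ (0 < δ v ∧ π v = u) := by
  let ρ : Fin n → Fin n := fun v => (G.connectedComponentMk v).out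
  have h1 : ∀ v, G.Reachable (ρ v) v := fun v =>
    SimpleGraph.ConnectedComponent.exact (Quot.out_eq _)
  have h2 : ∀ u v, G.Adj u v → ρ u = ρ v := fun u v h =>
    congrArg Quot.out (SimpleGraph.ConnectedComponent.sound h.reachable)
  choose P hP hl using fun v => (h1 v).exists_path_of_dist
  have h3 : ∀ u v, G.Adj u v → G.dist (ρ v) v = G.dist (ρ v) u + 1 → (P v).penultimate = u := by
    intro u v h hd
    obtain ⟨p, -, hp⟩ := ((h1 v).trans h.symm.reachable).exists_path_of_dist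
    have hq : (p.concat h).IsPath :=
      (p.concat h).isPath_of_length_eq_dist (by rw [p.length_concat, hp, hd])
    rw [Subtype.mk.inj <| hG.subsingleton_path _ _ |>.elim ⟨P v, hP v⟩ ⟨_, hq⟩]
    exact p.penultimate_concat h
  refine ⟨ρ, fun v => (P v).penultimate, fun v => G.dist (ρ v) v, h1, fun v => ?_,
    fun v h => (h1 v).dist_eq_zero_iff.1 h, fun v h => ?_, fun u v h => ?_⟩
  · simpa [hl] using (hP v).length_lt
  · have hn : ¬ (P v).Nil := by rw [SimpleGraph.Walk.not_nil_iff_lt_length, hl]; exact h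
    have ha := (P v).adj_penultimate hn
    refine ⟨?_, h2 _ _ ha⟩
    have a1 := G.dist_le (P v).dropLast
    have a2 := SimpleGraph.Walk.length_dropLast_add_one hn
    have a3 := hG.dist_eq_dist_add_one_of_adj_of_reachable _ ha.symm (h1 v)
    have a4 := hl v
    simp only [h2 _ _ ha]
    omega
  · rcases hG.dist_eq_dist_add_one_of_adj_of_reachable _ h (h1 u) with a | a
    · exact Or.inl ⟨by simp only [a]; omega, h3 v u h.symm a⟩
    · rw [h2 u v h] at a
      exact Or.inr ⟨by simp only [a]; omega, h3 u v h a⟩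

section depth

variable {V : Type} {π : V → V} {δ : V → ℕ}

theorem depth_ind (h : ∀ v, 0 < δ v → δ (π v) + 1 = δ v) {P : V → Prop}
    (h0 : ∀ v, δ v = 0 → P v) (h1 : ∀ v, 0 < δ v → P (π v) → P v) (v : V) : P v := by
  induction hk : δ v generalizing v with
  | zero => exact h0 v hk
  | succ k ih => exact h1 v (by omega) (ih _ (by have := h v (by omega); omega))

theorem depth_rec (h : ∀ v, 0 < δ v → δ (π v) + 1 = δ v) {X : Type} (x : X) (F : V → X → X) :
    ∃ f : V → X, (∀ v, δ v = 0 → f v = x) ∧ ∀ v, 0 < δ v → f v = F v (f (π v)) := by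
  let g : ℕ → V → X := fun k => Nat.rec (fun _ => x) (fun _ g v => F v (g (π v))) k
  refine ⟨fun v => g (δ v) v, fun v hv => by simp only [hv]; rfl, fun v hv => ?_⟩
  simp only [← h v hv]
  rfl

end depth

theorem exists_size {n b : ℕ} {G : SimpleGraph (Fin n)} {ρ π : Fin n → Fin n} {δ : Fin n → ℕ}
    (h1 : ∀ v, G.Reachable (ρ v) v) (h2 : ∀ v, 0 < δ v → δ (π v) + 1 = δ v ∧ ρ (π v) = ρ v)
    (hb : ∀ v, {u | G.Reachable v u}.ncard ≤ b) :
    ∃ σ : Fin n → ℕ, (∀ v, 0 < σ v ∧ σ v ≤ b) ∧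
      ∀ v, ∑ u with 0 < δ u ∧ π u = v, σ u ≤ σ v := by
  have hi : ∀ k u, k ≤ δ u → ρ (π^[k] u) = ρ u ∧ δ (π^[k] u) + k = δ u := by
    intro k
    induction k with
    | zero => simp
    | succ k ih =>
      intro u hk
      have a := ih u (by omega)
      have a' := h2 (π^[k] u) (by omega)
      rw [Function.iterate_succ_apply', a'.2]
      exact ⟨a.1, by omega⟩
  let D : Fin n → Finset (Fin n) := fun v => {u | δ v ≤ δ u ∧ π^[δ u - δ v] u = v}
  refine ⟨fun v => (D v).card, fun v => ⟨card_pos.2 ⟨v, by simp [D]⟩, ?_⟩, fun v => ?_⟩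
  · refine le_trans ?_ (hb v)
    refine (Set.ncard_coe_finset _).ge.trans (Set.ncard_le_ncard fun u hu => ?_)
    have hu' := (mem_filter.1 (mem_coe.1 hu)).2
    have := (hi (δ u - δ v) u (by omega)).1
    rw [hu'.2] at this
    exact (h1 v).symm.trans (this ▸ h1 u)
  · rw [← card_biUnion]
    · refine card_le_card fun w hw => ?_
      obtain ⟨u, hu, hw⟩ := mem_biUnion.1 hw
      obtain ⟨a1, a2⟩ := (mem_filter.1 hu).2
      obtain ⟨a3, a4⟩ := (mem_filter.1 hw).2
      have a5 := (h2 u a1).1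
      rw [a2] at a5
      refine mem_filter.2 ⟨mem_univ _, by omega, ?_⟩
      rw [show δ w - δ v = (δ w - δ u) + 1 by omega, Function.iterate_succ_apply', a4, a2]
    · intro u hu u' hu' hne
      refine disjoint_left.2 fun w hw hw' => hne ?_
      obtain ⟨a1, a2⟩ := (mem_filter.1 (mem_coe.1 hu)).2
      obtain ⟨b1, b2⟩ := (mem_filter.1 (mem_coe.1 hu')).2
      have a5 := (h2 u a1).1
      have b5 := (h2 u' b1).1
      rw [a2] at a5
      rw [b2] at b5
      rw [← (mem_filter.1 hw).2.2, ← (mem_filter.1 hw').2.2, show δ u = δ u' by omega]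

theorem exists_pos {n : ℕ} {ρ π : Fin n → Fin n} {δ σ : Fin n → ℕ} (h0 : ∀ v, δ v = 0 → ρ v = v)
    (h2 : ∀ v, 0 < δ v → δ (π v) + 1 = δ v ∧ ρ (π v) = ρ v)
    (hs : ∀ v, ∑ u with 0 < δ u ∧ π u = v, σ u ≤ σ v) :
    ∃ x : Fin n → ℕ, (∀ v, δ v = 0 → x v = 0) ∧
      (∀ v, 0 < δ v → x (π v) ≤ x v ∧ x v + σ v ≤ x (π v) + σ (π v)) ∧
      ∀ v u, ρ u = ρ v → δ u = δ v → u = v ∨ x u + σ u ≤ x v ∨ x v + σ v ≤ x u := by
  obtain ⟨x, a0, a1⟩ := depth_rec (π := π) (fun v h => (h2 v h).1) 0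
    fun v y => y + ∑ u with (0 < δ u ∧ π u = π v) ∧ u < v, σ u
  have key : ∀ (v : Fin n) (S : Finset (Fin n)), v ∈ S →
      ({u | (0 < δ u ∧ π u = π v) ∧ u < v} : Finset (Fin n)) ⊆ S →
      ∑ u with (0 < δ u ∧ π u = π v) ∧ u < v, σ u + σ v ≤ ∑ u ∈ S, σ u := fun v S hv hS => by
    rw [add_comm, ← sum_insert (by simp)]
    exact sum_le_sum_of_subset (insert_subset hv hS)
  have a2 : ∀ v, 0 < δ v → x (π v) ≤ x v ∧ x v + σ v ≤ x (π v) + σ (π v) := fun v hv => by
    have := (key v {u | 0 < δ u ∧ π u = π v} (by simp [hv])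
      fun u hu => by simpa using (mem_filter.1 hu).2.1).trans (hs (π v))
    rw [a1 v hv]
    omega
  have a3 : ∀ u v, 0 < δ u → 0 < δ v → π u = π v → u < v → x u + σ u ≤ x v := by
    intro u v hu hv h hlt
    have := key u {w | (0 < δ w ∧ π w = π v) ∧ w < v} (by simp [hu, h, hlt]) fun w hw => by
      obtain ⟨b1, b2⟩ := (mem_filter.1 hw).2
      exact mem_filter.2 ⟨mem_univ _, h ▸ b1, b2.trans hlt⟩
    rw [a1 v hv, a1 u hu, h] at *
    omega
  refine ⟨x, a0, a2, depth_ind (π := π) (fun v h => (h2 v h).1) (fun v hv u h h' => ?_)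
    fun v hv ih u h h' => ?_⟩
  · left; rw [← h0 u (h'.trans hv), h, h0 v hv]
  · have hu : 0 < δ u := h' ▸ hv
    have b1 := h2 u hu
    have b2 := h2 v hv
    have b3 := a2 u hu
    have b4 := a2 v hv
    rcases ih (π u) (by rw [b1.2, b2.2, h]) (by omega) with e | e | e
    · rcases lt_trichotomy u v with c | c | c
      · exact Or.inr (Or.inl (a3 u v hu hv e c))
      · exact Or.inl c
      · exact Or.inr (Or.inr (a3 v u hv hu e.symm c))
    · omega
    · omega

/-- class and block of an address -/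
def hd (s : ℕ) : List (ℕ × ℕ) → ℕ × ℕ
  | [] => (s, 0)
  | z :: _ => z

/-- the addresses whose classes are at least `s - k` -/
def addr (q s : ℕ) : ℕ → Finset (List (ℕ × ℕ))
  | 0 => {[]}
  | k + 1 => addr q s k ∪ (addr q s k).biUnion fun L =>
      (Ico ((hd s L).2 * q ^ ((hd s L).1 - (s - (k + 1))))
        (((hd s L).2 + 2) * q ^ ((hd s L).1 - (s - (k + 1))))).image fun y => (s - (k + 1), y) :: L

theorem addr_mono (q s : ℕ) {k l : ℕ} (h : k ≤ l) : addr q s k ⊆ addr q s l := by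
  induction l, h using Nat.le_induction with
  | base => exact Subset.rfl
  | succ l _ ih => exact ih.trans subset_union_left

theorem addr_cls (q s : ℕ) : ∀ k, ∀ L ∈ addr q s k, s - k ≤ (hd s L).1 := by
  intro k
  induction k with
  | zero => intro L hL; rw [mem_singleton.1 hL]; exact le_rfl
  | succ k ih =>
    intro L hL
    rcases mem_union.1 hL with h | h
    · have := ih L h; omega
    · obtain ⟨L', -, h⟩ := mem_biUnion.1 h
      obtain ⟨y, -, rfl⟩ := mem_image.1 h
      exact le_rfl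

theorem sum_biUnion_le' {α β : Type} [DecidableEq β] (S : Finset α) (t : α → Finset β)
    (f : β → ℕ) : ∑ y ∈ S.biUnion t, f y ≤ ∑ x ∈ S, ∑ y ∈ t x, f y := by
  classical
  induction S using Finset.induction_on with
  | empty => simp
  | insert a S ha ih =>
    rw [biUnion_insert, sum_insert ha]
    have := sum_union_inter (s₁ := t a) (s₂ := S.biUnion t) (f := f)
    omega

theorem addr_sum (q s k : ℕ) : ∑ L ∈ addr q s k, q ^ (hd s L).1 ≤ 3 ^ k * q ^ s := by
  induction k with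
  | zero => simp [addr, hd]
  | succ k ih =>
    rw [addr]
    refine le_trans (Nat.le_add_right _ _) (sum_union_inter.le.trans ?_)
    have e : ∑ L ∈ addr q s k, 2 * q ^ (hd s L).1 ≤ 2 * (3 ^ k * q ^ s) := by
      rw [← mul_sum]; exact Nat.mul_le_mul_left 2 ih
    refine (Nat.add_le_add ih ((sum_biUnion_le' _ _ _).trans
      ((sum_le_sum fun L hL => ?_).trans e))).trans (le_of_eq (by ring))
    have := addr_cls q s k L hL
    rw [sum_image fun y _ y' _ h => by simpa using h]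
    simp only [hd, sum_const, Nat.card_Ico, smul_eq_mul]
    rw [add_mul, Nat.add_sub_cancel_left, mul_assoc, ← pow_add]
    exact le_of_eq (by congr 2; change _ ≤ (hd s L).1 at this; unfold hd at this; omega)

theorem addr_card (q s : ℕ) (hq : 0 < q) : (addr q s s).card ≤ 3 ^ s * q ^ s := by
  refine le_trans ?_ (addr_sum q s s)
  rw [card_eq_sum_ones]
  exact sum_le_sum fun _ _ => Nat.pow_pos hq

theorem acyclic_of_height {V : Type} (G : SimpleGraph V) (f : V → ℕ)
    (h : ∀ v u u', G.Adj v u → G.Adj v u' → f u ≤ f v → f u' ≤ f v → u = u') : G.IsAcyclic := by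
  classical
  intro v c hc
  obtain ⟨w, hw, hmax⟩ := c.support.toFinset.exists_max_image f ⟨v, by simp⟩
  have hw' : w ∈ c.support := List.mem_toFinset.1 hw
  have hc' := hc.rotate hw'
  have hs : ∀ u ∈ (c.rotate w hw').support, f u ≤ f w := fun u hu =>
    hmax u (List.mem_toFinset.2 ((SimpleGraph.Walk.mem_support_rotate_iff _ _ _).1 hu))
  exact hc'.snd_ne_penultimate (h w _ _ ((c.rotate w hw').adj_snd hc'.not_nil)
    ((c.rotate w hw').adj_penultimate hc'.not_nil).symm
    (hs _ (SimpleGraph.Walk.getVert_mem_support _ _))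
    (hs _ (SimpleGraph.Walk.getVert_mem_support _ _)))

/-- an address is adjacent to its one-step extensions -/
def cgraph {m : ℕ} (e : Fin m → List (ℕ × ℕ)) : SimpleGraph (Fin m) where
  Adj u v := (∃ x, e v = x :: e u) ∨ (∃ x, e u = x :: e v)
  symm := ⟨fun _ _ h => h.symm⟩
  loopless := ⟨fun u h => by
    rcases h with ⟨x, h⟩ | ⟨x, h⟩ <;> simpa using congrArg List.length h⟩

theorem cgraph_acyclic {m : ℕ} {e : Fin m → List (ℕ × ℕ)} (he : Function.Injective e) :
    (cgraph e).IsAcyclic := by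
  have key : ∀ v u, (cgraph e).Adj v u → (e u).length ≤ (e v).length → e u = (e v).tail := by
    rintro v u (⟨x, h⟩ | ⟨x, h⟩) hl
    · rw [h] at hl; simp at hl
    · rw [h]; rfl
  exact acyclic_of_height _ (fun v => (e v).length) fun v u u' h1 h2 h3 h4 =>
    he ((key v u h1 h3).trans (key v u' h2 h4).symm)

theorem exists_label {n q b : ℕ} (hq : 2 ≤ q) {ρ π : Fin n → Fin n} {δ σ x : Fin n → ℕ}
    (h0 : ∀ v, δ v = 0 → ρ v = v) (h2 : ∀ v, 0 < δ v → δ (π v) + 1 = δ v ∧ ρ (π v) = ρ v)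
    (hσ : ∀ v, 0 < σ v ∧ σ v ≤ b) (x0 : ∀ v, δ v = 0 → x v = 0)
    (x1 : ∀ v, 0 < δ v → x (π v) ≤ x v ∧ x v + σ v ≤ x (π v) + σ (π v)) :
    ∃ lab : Fin n → List (ℕ × ℕ), (∀ v, lab v ∈ addr q (Nat.log q b) (Nat.log q b)) ∧
      (∀ v, 0 < δ v → lab v = lab (π v) ∨ ∃ z, lab v = z :: lab (π v)) ∧
      ∀ v, (hd (Nat.log q (σ (ρ v))) (lab v)).1 = Nat.log q (σ v) ∧
        (hd 0 (lab v)).2 * q ^ (Nat.log q (σ v) + 1) ≤ x v ∧
        x v < ((hd 0 (lab v)).2 + 2) * q ^ (Nat.log q (σ v) + 1) := by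
  obtain ⟨lab, a0, a1⟩ := depth_rec (π := π) (fun v h => (h2 v h).1) ([] : List (ℕ × ℕ))
    fun v L => if Nat.log q (σ v) = Nat.log q (σ (π v)) then L
      else (Nat.log q (σ v), x v / q ^ (Nat.log q (σ v) + 1)) :: L
  have hlt : ∀ v, σ v < q ^ (Nat.log q (σ v) + 1) := fun v => Nat.lt_pow_succ_log_self hq _
  have hls : ∀ v, Nat.log q (σ v) ≤ Nat.log q b := fun v => Nat.log_mono_right (hσ v).2
  have main : ∀ v, lab v ∈ addr q (Nat.log q b) (Nat.log q b - Nat.log q (σ v)) ∧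
      (hd (Nat.log q (σ (ρ v))) (lab v)).1 = Nat.log q (σ v) ∧
      (hd 0 (lab v)).2 * q ^ (Nat.log q (σ v) + 1) ≤ x v ∧
      x v + σ v ≤ ((hd 0 (lab v)).2 + 2) * q ^ (Nat.log q (σ v) + 1) := by
    refine depth_ind (π := π) (fun v h => (h2 v h).1) (fun v hv => ?_) fun v hv ih => ?_
    · have := hlt v
      rw [a0 v hv, h0 v hv, x0 v hv]
      refine ⟨addr_mono _ _ (Nat.zero_le _) (mem_singleton_self _), rfl, by simp [hd], ?_⟩
      simp only [hd]
      omega
    · have b1 := x1 v hv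
      obtain ⟨i1, i2, i3, i4⟩ := ih
      rw [a1 v hv]
      split_ifs with h
      · rw [h, ← (h2 v hv).2]
        exact ⟨i1, i2, by omega, by omega⟩
      · have c1 : Nat.log q (σ v) < Nat.log q (σ (π v)) :=
          lt_of_le_of_ne (Nat.log_mono_right (by omega)) h
        have c2 := hls (π v)
        have hQ : 0 < q ^ (Nat.log q (σ v) + 1) := by positivity
        refine ⟨?_, rfl, Nat.div_mul_le_self _ _, ?_⟩
        · have c3 : Nat.log q (σ (π v)) ≤ (hd (Nat.log q b) (lab (π v))).1 ∧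
              (hd (Nat.log q b) (lab (π v))).2 = (hd 0 (lab (π v))).2 ∧
              (hd 0 (lab (π v))).2 * q ^ ((hd (Nat.log q b) (lab (π v))).1 + 1) ≤ x (π v) := by
            generalize lab (π v) = L at *
            cases L with
            | nil => simp [hd, c2]
            | cons z L => simp only [hd] at *; exact ⟨i2.ge, trivial, i2 ▸ i3⟩
          obtain ⟨k, hk⟩ : ∃ k, Nat.log q b - Nat.log q (σ v) = k + 1 :=
            ⟨Nat.log q b - Nat.log q (σ v) - 1, by omega⟩
          have hk' : Nat.log q b - (k + 1) = Nat.log q (σ v) := by omega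
          rw [hk, addr, hk']
          refine mem_union_right _ (mem_biUnion.2 ⟨_, addr_mono _ _ (by omega) i1,
            mem_image.2 ⟨_, mem_Ico.2 ?_, rfl⟩⟩)
          have e : (hd (Nat.log q b) (lab (π v))).1 - Nat.log q (σ v) + (Nat.log q (σ v) + 1) =
              (hd (Nat.log q b) (lab (π v))).1 + 1 := by omega
          rw [Nat.le_div_iff_mul_le hQ, Nat.div_lt_iff_lt_mul hQ, mul_assoc, mul_assoc, ← pow_add,
            e, c3.2.1]
          have c4 := Nat.mul_le_mul_left ((hd 0 (lab (π v))).2 + 2)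
            (Nat.pow_le_pow_right (by omega : 0 < q) (Nat.succ_le_succ c3.1))
          have := (hσ v).1
          simp only [Nat.succ_eq_add_one] at c4
          omega
        · have := Nat.lt_div_mul_add (a := x v) hQ
          have := hlt v
          simp only [hd, add_mul]
          omega
  refine ⟨lab, fun v => addr_mono _ _ (Nat.sub_le _ _) (main v).1, fun v hv => ?_,
    fun v => ⟨(main v).2.1, (main v).2.2.1, ?_⟩⟩
  · rw [a1 v hv]
    split_ifs
    · exact Or.inl rfl
    · exact Or.inr ⟨_, rfl⟩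
  · have := (main v).2.2.2
    have := (hσ v).1
    omega

theorem slot_ne {q j y x x' : ℕ} (hq : 0 < q) (h1 : y * q ^ (j + 1) ≤ x)
    (h2 : x' < (y + 2) * q ^ (j + 1)) (h3 : x + q ^ j ≤ x') :
    x / q ^ j % (2 * q) ≠ x' / q ^ j % (2 * q) := by
  have hQ : 0 < q ^ j := by positivity
  have a1 : y * q ≤ x / q ^ j := by
    rw [Nat.le_div_iff_mul_le hQ, mul_assoc, ← pow_succ']; exact h1
  have a2 : x' / q ^ j < (y + 2) * q := by
    rw [Nat.div_lt_iff_lt_mul hQ, mul_assoc, ← pow_succ']; exact h2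
  have a3 : x / q ^ j + 1 ≤ x' / q ^ j := by
    rw [← Nat.add_div_right _ hQ]; exact Nat.div_le_div_right h3
  intro h
  have := Nat.le_of_dvd (by omega) ((Nat.modEq_iff_dvd' (by omega)).1 h)
  rw [add_mul] at a2
  omega

theorem size_bound {q b : ℕ} (hq : 2 ≤ q) (hb : 1 ≤ b) :
    ((3 ^ Nat.log q b * q ^ Nat.log q b : ℕ) : ℝ) ≤ (b : ℝ) ^ (1 + Real.logb q 3) := by
  have hq' : (1 : ℝ) < q := by exact_mod_cast hq
  have h1 : (q : ℝ) ^ Nat.log q b ≤ b := by exact_mod_cast Nat.pow_log_le_self q (by omega)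
  have hL : 0 ≤ Real.logb q 3 := Real.logb_nonneg hq' (by norm_num)
  have h2 : (3 : ℝ) ^ Nat.log q b ≤ (b : ℝ) ^ Real.logb q 3 := by
    refine le_trans (le_of_eq ?_) (Real.rpow_le_rpow (by positivity) h1 hL)
    rw [← Real.rpow_natCast (q : ℝ), ← Real.rpow_mul (by positivity), mul_comm,
      Real.rpow_mul_natCast (by positivity), Real.rpow_logb (by positivity) hq'.ne' (by norm_num)]
  rw [Real.rpow_add (by exact_mod_cast hb), Real.rpow_one, mul_comm (b : ℝ)]
  push_cast
  exact mul_le_mul h2 h1 (by positivity) (by positivity)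

end Pool.Agent.P.MP_951455_co
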