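import Mathlib
import Pool.Agent.P.MP_951455_co.Upper

set_option autoImplicit false

namespace Pool.Agent.P.MP_951455_co.VariantForestHost

open Pool.Agent.P.MP_951455_co

theorem result (q b : ℕ) (hq : 2 ≤ q) (hb : 1 ≤ b) :
    ∃ m : ℕ, (m : ℝ) ≤ (b : ℝ) ^ (1 + Real.logb q 3) ∧ ∃ H : SimpleGraph (Fin m), H.IsAcyclic ∧
      ∀ (n : ℕ) (G : SimpleGraph (Fin n)), G.IsAcyclic →
        (∀ v, {u | G.Reachable v u}.ncard ≤ b) →
        ∃ (l : ℕ) (φ : Fin n → Fin m × Fin l × Fin (2 * q)), Function.Injective φ ∧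
          ∀ u v, G.Adj u v →
            ((φ u).1 = (φ v).1 ∨ H.Adj (φ u).1 (φ v).1) ∧
            ((φ u).2.1 = (φ v).2.1 ∨ (SimpleGraph.pathGraph l).Adj (φ u).2.1 (φ v).2.1) := by
  let E := (addr q (Nat.log q b) (Nat.log q b)).equivFin
  refine ⟨_, le_trans (by exact_mod_cast addr_card q _ (by omega)) (size_bound hq hb),
    cgraph fun u => (E.symm u).1,
    cgraph_acyclic (Subtype.val_injective.comp E.symm.injective), fun n G hG hc => ?_⟩
  obtain ⟨ρ, π, δ, r1, r2, r3, r4, r5⟩ := rooting G hG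
  obtain ⟨σ, s1, s2⟩ := exists_size r1 r4 hc
  obtain ⟨x, x0, x1, x2⟩ := exists_pos r3 r4 s2
  obtain ⟨lab, l1, l2, l3⟩ := exists_label hq r3 r4 s1 x0 x1
  have hτ : ∀ v, (ρ v).val * n + δ v < n * n := fun v => by
    have := Nat.mul_le_mul_right n (Nat.succ_le_of_lt (ρ v).2)
    have := r2 v
    rw [Nat.succ_mul] at *
    omega
  let φ : Fin n → Fin (addr q (Nat.log q b) (Nat.log q b)).card × Fin (n * n) × Fin (2 * q) :=
    fun v => (E ⟨lab v, l1 v⟩, ⟨_, hτ v⟩,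
      ⟨x v / q ^ Nat.log q (σ v) % (2 * q), Nat.mod_lt _ (by omega)⟩)
  have par : ∀ v, 0 < δ v → ((φ (π v)).1 = (φ v).1 ∨
      (cgraph fun u => (E.symm u).1).Adj (φ (π v)).1 (φ v).1) ∧
      (SimpleGraph.pathGraph (n * n)).Adj (φ (π v)).2.1 (φ v).2.1 := fun v hv => by
    refine ⟨(l2 v hv).imp (fun h => ?_) fun h => Or.inl (by simpa [φ] using h), ?_⟩
    · simp only [φ, h]
    · rw [SimpleGraph.pathGraph_adj]
      have := r4 v hv
      simp only [φ, this.2]
      omega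
  refine ⟨n * n, φ, fun u v h => ?_, fun u v h => ?_⟩
  · simp only [φ, Prod.mk.injEq, Fin.mk.injEq, EmbeddingLike.apply_eq_iff_eq,
      Subtype.mk.injEq] at h
    obtain ⟨h1, h2, h3⟩ := h
    have a1 : δ u = δ v := by
      have := congrArg (· % n) h2
      simpa [Nat.mul_add_mod_self_right, Nat.mod_eq_of_lt (r2 _)] using this
    have a2 : ρ u = ρ v :=
      Fin.ext (Nat.eq_of_mul_eq_mul_right u.pos (by omega))
    have b1 := l3 u
    have b2 := l3 v
    rw [h1, a2, b2.1] at b1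
    have c1 := Nat.pow_log_le_self q (s1 u).1.ne'
    have c2 := Nat.pow_log_le_self q (s1 v).1.ne'
    have e0 := b1.1
    rw [← e0] at b1 h3 c1
    rcases x2 v u a2 a1 with e | e | e
    · exact e
    · exact absurd h3 (slot_ne (by omega) b1.2.1 b2.2.2 (by omega))
    · exact absurd h3.symm (slot_ne (by omega) b2.2.1 b1.2.2 (by omega))
  · rcases r5 u v h with ⟨a, rfl⟩ | ⟨a, rfl⟩
    · exact ⟨(par u a).1.imp Eq.symm SimpleGraph.Adj.symm, Or.inr (par u a).2.symm⟩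
    · exact ⟨(par v a).1, Or.inr (par v a).2⟩

end Pool.Agent.P.MP_951455_co.VariantForestHost
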