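import Mathlib
import Pool.Agent.P.MP_951455_co.Graph

set_option autoImplicit false

namespace Pool.Agent.P.MP_951455_co.VariantNoSmallFactor

theorem result : ∀ c : ℕ, ∃ n k b : ℕ, 1 ≤ n ∧ 1 ≤ k ∧ 1 ≤ b ∧ n ≤ k * b ∧
    ∃ G : SimpleGraph (Fin n),
      (∃ p : Fin n → ℝ × ℝ, Function.Injective p ∧
        ∃ γ : Fin n → Fin n → unitInterval → ℝ × ℝ,
          (∀ u v, G.Adj u v → Continuous (γ u v) ∧ Function.Injective (γ u v) ∧
              γ u v 0 = p u ∧ γ u v 1 = p v) ∧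
          (∀ u v w x, G.Adj u v → γ u v x = p w → (w = u ∧ x = 0) ∨ (w = v ∧ x = 1)) ∧
          (∀ u v u' v' x y, G.Adj u v → G.Adj u' v' → s(u, v) ≠ s(u', v') →
              γ u v x = γ u' v' y → ∃ w, γ u v x = p w)) ∧
      (∃ m : ℕ, ∃ T : SimpleGraph (Fin m), T.IsTree ∧
        ∃ B : Fin m → Finset (Fin n),
          (∀ v, ∃ i, v ∈ B i) ∧
          (∀ u v, G.Adj u v → ∃ i, u ∈ B i ∧ v ∈ B i) ∧
          (∀ v, (T.induce {i | v ∈ B i}).Connected) ∧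
          (∀ i, (B i).card ≤ k + 1)) ∧
      (∃ f : Fin n → ℕ,
        (∀ u v, G.Adj u v → f u ≤ f v + 1 ∧ f v ≤ f u + 1) ∧
        (∀ i : ℕ, (Finset.univ.filter (fun v => f v = i)).card ≤ b)) ∧
      ∀ m : ℕ, m ≤ b → ∀ H : SimpleGraph (Fin m),
        (∃ r : ℕ, ∃ T : SimpleGraph (Fin r), T.IsTree ∧
          ∃ B : Fin r → Finset (Fin m),
            (∀ v, ∃ i, v ∈ B i) ∧
            (∀ u v, H.Adj u v → ∃ i, u ∈ B i ∧ v ∈ B i) ∧
            (∀ v, (T.induce {i | v ∈ B i}).Connected) ∧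
            (∀ i, (B i).card ≤ 3 + 1)) →
        ∀ l : ℕ, ¬ ∃ φ : Fin n → Fin m × Fin l × Fin c, Function.Injective φ ∧
          ∀ u v, G.Adj u v →
            ((φ u).1 = (φ v).1 ∨ H.Adj (φ u).1 (φ v).1) ∧
            ((φ u).2.1 = (φ v).2.1 ∨ (SimpleGraph.pathGraph l).Adj (φ u).2.1 (φ v).2.1) := by
  classical
  intro c
  obtain ⟨n, J, A, S, hlt, hbd, hsurj⟩ := Pool.Agent.P.MP_951455_co.exists_enum (400 * c ^ 2 + 1)
  have hK : 0 < 400 * c ^ 2 + 1 := Nat.succ_pos _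
  have hb : 1 ≤ 2 ^ (400 * c ^ 2 + 1) := Nat.one_le_two_pow
  have hn : 1 ≤ n := by
    obtain ⟨u, -⟩ := hsurj 0 hK 0 (Nat.two_pow_pos _) 0 (Nat.two_pow_pos _)
    exact u.pos
  refine ⟨n, n, 2 ^ (400 * c ^ 2 + 1), hn, hn, hb, Nat.le_mul_of_pos_right _ hb,
    Pool.Agent.P.MP_951455_co.forest J A S, ?_, ?_, ?_, ?_⟩
  · obtain ⟨p, hp, γ, h1, h2, h3⟩ := Pool.Agent.P.MP_951455_co.planar_of_noncross _
      (Pool.Agent.P.MP_951455_co.forest_noncross J A S hlt)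
    refine ⟨p, hp, γ, h1, h2, ?_⟩
    intro u v u' v' x y huv huv' hne
    refine h3 u v u' v' x y huv huv' (fun h => hne ?_)
    rw [Prod.mk.injEq] at h
    rw [h.1, h.2]
  · refine ⟨1, ⊥, SimpleGraph.IsTree.of_subsingleton, fun _ => Finset.univ, ?_, ?_, ?_, ?_⟩
    · intro v; exact ⟨0, Finset.mem_univ _⟩
    · intro u v _; exact ⟨0, Finset.mem_univ _, Finset.mem_univ _⟩
    · intro v
      have : Nonempty {i : Fin 1 | v ∈ (Finset.univ : Finset (Fin n))} := ⟨⟨0, by simp⟩⟩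
      exact SimpleGraph.IsTree.of_subsingleton.connected
    · intro i; simp
  · refine ⟨J, ?_, Pool.Agent.P.MP_951455_co.layer_card J A S hlt hbd⟩
    intro u v huv
    have := huv.1
    omega
  · rintro m hm H ⟨r, T, hT, B, -, hE, hC, hw⟩ l ⟨φ, hφ, hadj⟩
    have hle := Pool.Agent.P.MP_951455_co.no_embedding J A S hsurj H T hT B hE hC hw φ hφ hadj hK
    have h2 : 400 * c ^ 2 * m ≤ 400 * c ^ 2 * 2 ^ (400 * c ^ 2 + 1) := Nat.mul_le_mul_left _ hm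
    have h3 := Nat.le_of_mul_le_mul_right (hle.trans h2) hb
    omega

end Pool.Agent.P.MP_951455_co.VariantNoSmallFactor
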